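import Pool.Agent.Q168.TW.Lat
import Pool.Agent.Y168.FK.Leg

/-!
# Primes represented by a primitive binary form, up to squares

A quadratic form `F` with coprime values `F v₀ ≡ 1 mod 3`, `F w₀`, positive definite on the span of `v₀`,
`w₀`, represents `ℓ k^2` for some prime number `ℓ ≡ 1 mod 3`.
-/

set_option autoImplicit false

namespace Pool.Agent.Q168.TW

variable {M : Type} [AddCommGroup M] {F : M → ℤ} {B : M → M → ℤ}

/-- squares and sums `x^2 + d y^2` -/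
theorem conic {n d : ℕ} (hn : 0 < n) (hd : 0 < d) (hcop : n.Coprime d)
    (h1 : ∃ s : ℤ, (n : ℤ) ∣ s ^ 2 + d) (h2 : ∃ w : ℤ, (d : ℤ) ∣ w ^ 2 - n)
    (n1 : ∀ x : ℤ, x ^ 2 ≠ n * d) (n2 : ∀ x : ℤ, x ^ 2 ≠ n) :
    ∃ x y z : ℤ, z ≠ 0 ∧ x ^ 2 + d * y ^ 2 = n * z ^ 2 := by
  by_cases hsq : ∃ t : ℤ, t ^ 2 = d
  · obtain ⟨t, ht⟩ := hsq
    -- `-1` is a square modulo `n`
    obtain ⟨s, k, hk⟩ := h1
    have hc : IsCoprime (t : ℤ) (n : ℤ) := by
      have : IsCoprime (t ^ 2 : ℤ) (n : ℤ) := by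
        rw [ht]
        exact (Nat.isCoprime_iff_coprime.2 hcop).symm
      exact (IsCoprime.pow_left_iff (by norm_num)).1 this
    obtain ⟨u, v, huv⟩ := hc
    have h3 : IsSquare (-1 : ZMod n) := by
      refine ⟨((s * u : ℤ) : ZMod n), ?_⟩
      have h4 : (n : ℤ) ∣ (s * u) * (s * u) + 1 := by
        refine ⟨u ^ 2 * k + (1 + u * t) * v, ?_⟩
        have h5 : u * t = 1 - v * n := by linarith
        have h6 : s ^ 2 = n * k - d := by linarith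
        have h7 : (s * u) * (s * u) + 1 = s ^ 2 * u ^ 2 + 1 := by ring
        rw [h7, h6, ← ht]
        linear_combination -(1 + u * t) * h5
      have h5 := (ZMod.intCast_zmod_eq_zero_iff_dvd _ n).2 h4
      push_cast at h5 ⊢
      linear_combination -h5
    obtain ⟨x, y, hxy⟩ := Nat.eq_sq_add_sq_of_isSquare_mod_neg_one h3
    have ht0 : t ≠ 0 := by
      rintro rfl
      have : (d : ℤ) = 0 := by rw [← ht]; ring
      omega
    refine ⟨t * x, y, t, ht0, ?_⟩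
    rw [← ht]
    have : (n : ℤ) = x ^ 2 + y ^ 2 := by exact_mod_cast hxy
    rw [this]
    ring
  · push Not at hsq
    obtain ⟨x, y, z, hz, h⟩ := Pool.Agent.Y168.FK.legendre (r := n) (b := 1) (c := d) hn one_pos hd
      (Nat.coprime_one_right n) hcop (Nat.coprime_one_left d)
      (by obtain ⟨s, hs⟩ := h1; exact ⟨s, by simpa using hs⟩) ⟨0, by simp⟩
      (by obtain ⟨w, hw⟩ := h2; exact ⟨w, by simpa using hw⟩)
      n1 (fun x hx => n2 x (by simpa using hx)) (fun x hx => hsq x (by simpa using hx))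
    exact ⟨x, y, z, hz, by simpa using h⟩

theorem not_sq_of_prime {ℓ m : ℕ} (hℓ : ℓ.Prime) (hm : ¬ ℓ ∣ m) (x : ℤ) : x ^ 2 ≠ (m : ℤ) * ℓ := by
  intro hx
  have hℓ' : Prime (ℓ : ℤ) := Nat.prime_iff_prime_int.1 hℓ
  obtain ⟨y, rfl⟩ : (ℓ : ℤ) ∣ x := hℓ'.dvd_of_dvd_pow ⟨m, by rw [hx]; ring⟩
  apply hm
  have h1 : (ℓ : ℤ) * m = ℓ * (ℓ * y ^ 2) := by linear_combination -hx
  have h2 := mul_left_cancel₀ hℓ'.ne_zero h1
  exact Int.natCast_dvd_natCast.1 ⟨_, h2⟩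

/-- the arithmetic core: `C` is odd, `≡ 1 mod 3`, coprime to `d`, and `-d` is a square modulo `C` -/
theorem exists_prime_conic {C d : ℕ} {D : ℤ} (hC : 0 < C) (hd : 0 < d) (hC2 : C % 2 = 1)
    (hC3 : C % 3 = 1) (hcop : C.Coprime d) (hD : (C : ℤ) ∣ D ^ 2 + d) :
    ∃ (ℓ : ℕ) (x y z : ℤ), ℓ.Prime ∧ ℓ % 3 = 1 ∧ z ≠ 0 ∧
      x ^ 2 + d * y ^ 2 = C * ℓ * z ^ 2 := by
  have hcop2 : C.Coprime (24 * d) := by
    have h1 : C.Coprime 24 := by
      have h2 : C.Coprime 2 := (Nat.coprime_two_right).2 (Nat.odd_iff.2 hC2)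
      have h3 : C.Coprime 3 := by
        rw [Nat.coprime_comm, Nat.Prime.coprime_iff_not_dvd Nat.prime_three]
        omega
      have h4 : (24 : ℕ) = 2 ^ 3 * 3 := by norm_num
      rw [h4]
      exact Nat.Coprime.mul_right (Nat.Coprime.pow_right 3 h2) h3
    exact Nat.Coprime.mul_right h1 hcop
  obtain ⟨u, v, huv⟩ : IsCoprime (C : ℤ) ((24 * d : ℕ) : ℤ) := Nat.isCoprime_iff_coprime.2 hcop2
  have hu : IsCoprime u ((24 * d : ℕ) : ℤ) := ⟨C, v, by linarith⟩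
  obtain ⟨ℓ, hℓC, hℓ, hℓu⟩ := Nat.forall_exists_prime_gt_and_zmodEq C
    (q := 24 * d) (by omega) hu
  obtain ⟨i, hi⟩ := hℓu.dvd
  -- `u - ℓ = 24 d i`
  have h1 : (C : ℤ) * ℓ = 1 - (24 * d) * (v + C * i) := by
    have h2 : (ℓ : ℤ) = u - (24 * d) * i := by push_cast at hi; linarith
    rw [h2]
    push_cast at huv
    linear_combination huv
  have hmod : ∀ m : ℕ, 1 < m → m ∣ 24 * d → (C * ℓ) % m = 1 := by
    intro m hm1 hm
    obtain ⟨j, hj⟩ := hm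
    have h3 : ((C * ℓ : ℕ) : ℤ) = 1 + m * (-(j * (v + C * i))) := by
      have h4 : ((24 * d : ℕ) : ℤ) = m * j := by exact_mod_cast hj
      push_cast at h4 ⊢
      rw [h1, h4]
      ring
    have h5 : ((C * ℓ : ℕ) : ℤ) % m = 1 := by
      rw [h3, Int.add_mul_emod_self_left]
      exact Int.emod_eq_of_lt (by norm_num) (by exact_mod_cast hm1)
    exact_mod_cast h5
  have hℓ3 : ℓ % 3 = 1 := by
    have h3 := hmod 3 (by norm_num) ⟨8 * d, by ring⟩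
    rw [Nat.mul_mod, hC3, one_mul, Nat.mod_mod] at h3
    exact h3
  have hcopn : (C * ℓ).Coprime d := by
    rw [← Nat.isCoprime_iff_coprime]
    exact ⟨1, 24 * (v + C * i), by push_cast; rw [h1]; ring⟩
  have hℓd : ¬ ℓ ∣ d := by
    intro h
    have h3 : ℓ ∣ Nat.gcd (C * ℓ) d := Nat.dvd_gcd (dvd_mul_left _ _) h
    rw [hcopn] at h3
    exact hℓ.one_lt.ne' (Nat.dvd_one.1 h3)
  have hℓC' : ¬ ℓ ∣ C := fun h => absurd (Nat.le_of_dvd hC h) (by omega)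
  have hFact : Fact ℓ.Prime := ⟨hℓ⟩
  have hNe : NeZero ℓ := ⟨hℓ.ne_zero⟩
  have hNeC : NeZero C := ⟨hC.ne'⟩
  have hℓodd : Odd ℓ := by
    rcases hℓ.eq_two_or_odd' with h | h
    · rw [h] at hℓ3
      omega
    · exact h
  have hj1 : jacobiSym (-(d : ℤ)) (C * ℓ) = 1 := by
    rw [jacobiSym.mod_right _ ((Nat.odd_iff.2 hC2).mul hℓodd)]
    have h3 : (-(d : ℤ)).natAbs = d := by simp
    rw [h3, hmod (4 * d) (by omega) ⟨6, by ring⟩]
    exact jacobiSym.one_right _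
  have hDC : IsCoprime D (C : ℤ) := by
    have h3 : IsCoprime (d : ℤ) (C : ℤ) := Nat.isCoprime_iff_coprime.2 hcop.symm
    obtain ⟨k, hk⟩ := hD
    obtain ⟨a, b, hab⟩ := h3
    -- `d = C k - D^2`
    have h4 : IsCoprime (D ^ 2) (C : ℤ) := ⟨-a, b + a * k, by linear_combination hab - a * hk⟩
    exact (IsCoprime.pow_left_iff (by norm_num)).1 h4
  have hj2 : jacobiSym (-(d : ℤ)) C = 1 := by
    have h3 : (-(d : ℤ)) % C = (D ^ 2) % C := by
      have h4 : (D ^ 2) ≡ (-(d : ℤ)) [ZMOD C] := by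
        rw [Int.modEq_iff_dvd]
        have : -(d : ℤ) - D ^ 2 = -(D ^ 2 + d) := by ring
        rw [this, dvd_neg]
        exact hD
      exact h4.symm
    rw [jacobiSym.mod_left' h3]
    exact jacobiSym.sq_one' (Int.isCoprime_iff_gcd_eq_one.1 hDC)
  have hj3 : jacobiSym (-(d : ℤ)) ℓ = 1 := by
    rw [jacobiSym.mul_right, hj2, one_mul] at hj1
    exact hj1
  obtain ⟨s, hs⟩ := Pool.Agent.Y168.FK.loc hℓ fun _ => hj3
  have hCℓ : IsCoprime (C : ℤ) (ℓ : ℤ) :=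
    Nat.isCoprime_iff_coprime.2 ((Nat.coprime_comm).1 ((Nat.Prime.coprime_iff_not_dvd hℓ).2 hℓC'))
  have h4 : ∃ s : ℤ, ((C * ℓ : ℕ) : ℤ) ∣ s ^ 2 + d := by
    obtain ⟨a, b, hab⟩ := hCℓ
    -- `a C + b ℓ = 1`
    refine ⟨D * (b * ℓ) + s * (a * C), ?_⟩
    push_cast
    refine IsCoprime.mul_dvd ⟨a, b, hab⟩ ?_ ?_
    · obtain ⟨k, hk⟩ := hD
      have e : D * (b * ℓ) + s * (a * C) = D + C * (a * (s - D)) := by linear_combination D * hab
      rw [e]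
      exact ⟨k + 2 * D * (a * (s - D)) + C * (a * (s - D)) ^ 2, by linear_combination hk⟩
    · obtain ⟨k, hk⟩ := hs
      have e : D * (b * ℓ) + s * (a * C) = s + ℓ * (b * (D - s)) := by linear_combination s * hab
      rw [e]
      exact ⟨k + 2 * s * (b * (D - s)) + ℓ * (b * (D - s)) ^ 2, by linear_combination hk⟩
  have hn : 0 < C * ℓ := Nat.mul_pos hC hℓ.pos
  obtain ⟨x, y, z, hz, h⟩ := conic hn hd hcopn h4
    ⟨1, 24 * (v + C * i), by push_cast; rw [h1]; ring⟩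
    (fun x hx => not_sq_of_prime (m := C * d) hℓ
      (fun h => (hℓ.dvd_mul.1 h).elim hℓC' hℓd) x (by rw [hx]; push_cast; ring))
    (fun x hx => not_sq_of_prime (m := C) hℓ hℓC' x (by rw [hx]; push_cast; ring))
  exact ⟨ℓ, x, y, z, hℓ, hℓ3, hz, by rw [h]; push_cast; ring⟩

/-- two squarefree numbers -/
theorem exists_split (n C : ℕ) (hn : n ≠ 0) : ∃ S T : ℕ, 0 < S ∧ 0 < T ∧
    (∀ p : ℕ, p.Prime → p ∣ S → p ∣ C) ∧ (∀ p : ℕ, p.Prime → p ∣ T → ¬ p ∣ C) ∧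
    (∀ p : ℕ, p.Prime → p ∣ n → p ∣ S ∨ p ∣ T) := by
  refine ⟨∏ p ∈ n.primeFactors with p ∣ C, p, ∏ p ∈ n.primeFactors with ¬ p ∣ C, p,
    Finset.prod_pos fun p hp => (Nat.prime_of_mem_primeFactors (Finset.mem_filter.1 hp).1).pos,
    Finset.prod_pos fun p hp => (Nat.prime_of_mem_primeFactors (Finset.mem_filter.1 hp).1).pos,
    ?_, ?_, ?_⟩
  · intro p hp h
    obtain ⟨q, hq, hpq⟩ := (Prime.dvd_finsetProd_iff hp.prime _).1 h
    rw [Finset.mem_filter] at hq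
    have := (Nat.prime_dvd_prime_iff_eq hp (Nat.prime_of_mem_primeFactors hq.1)).1 hpq
    rw [this]
    exact hq.2
  · intro p hp h
    obtain ⟨q, hq, hpq⟩ := (Prime.dvd_finsetProd_iff hp.prime _).1 h
    rw [Finset.mem_filter] at hq
    have := (Nat.prime_dvd_prime_iff_eq hp (Nat.prime_of_mem_primeFactors hq.1)).1 hpq
    rw [this]
    exact hq.2
  · intro p hp h
    have h1 : p ∈ n.primeFactors := Nat.mem_primeFactors.2 ⟨hp, h, hn⟩
    by_cases h2 : p ∣ C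
    · exact Or.inl (Finset.dvd_prod_of_mem _ (Finset.mem_filter.2 ⟨h1, h2⟩))
    · exact Or.inr (Finset.dvd_prod_of_mem _ (Finset.mem_filter.2 ⟨h1, h2⟩))

/-- **A prime number, up to squares, represented by a primitive binary form.** -/
theorem exists_prime_value (hF : IsQuad F B) {v₀ w₀ : M} (h0 : 0 < F v₀) (h3 : F v₀ % 3 = 1)
    (hcop : IsCoprime (F v₀) (F w₀)) (hΔ : 0 < 4 * F v₀ * F w₀ - B v₀ w₀ ^ 2) :
    ∃ (v : M) (ℓ : ℕ) (k : ℤ), ℓ.Prime ∧ ℓ % 3 = 1 ∧ k ≠ 0 ∧ F v = ℓ * k ^ 2 := by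
  obtain ⟨Δ, hΔd⟩ : ∃ Δ, Δ = 4 * F v₀ * F w₀ - B v₀ w₀ ^ 2 := ⟨_, rfl⟩
  rw [← hΔd] at hΔ
  obtain ⟨C₀, hC₀⟩ : ∃ C₀, C₀ = F v₀ := ⟨_, rfl⟩
  obtain ⟨A₀, hA₀⟩ : ∃ A₀, A₀ = F w₀ := ⟨_, rfl⟩
  obtain ⟨B₀, hB₀⟩ : ∃ B₀, B₀ = B v₀ w₀ := ⟨_, rfl⟩
  rw [← hC₀] at h0 h3
  rw [← hC₀, ← hA₀] at hcop
  rw [← hC₀, ← hA₀, ← hB₀] at hΔd
  obtain ⟨S, T, hS, hT, hSC, hTC, hST⟩ := exists_split (2 * Δ).natAbs C₀.natAbs (by omega)
  obtain ⟨C, hC⟩ : ∃ C, C = (S : ℤ) ^ 2 * C₀ + (3 * T) ^ 2 * A₀ + S * (3 * T) * B₀ := ⟨_, rfl⟩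
  obtain ⟨D, hD⟩ : ∃ D, D = 2 * S * C₀ + 3 * T * B₀ := ⟨_, rfl⟩
  have hFv : F ((S : ℤ) • v₀ + (3 * T : ℤ) • w₀) = C := by
    rw [hF.F_comb, ← hC₀, ← hA₀, ← hB₀, hC]
  have hBv : B ((S : ℤ) • v₀ + (3 * T : ℤ) • w₀) v₀ = D := by
    rw [hF.add_left, hF.smul_left, hF.smul_left, hF.self, hF.comm w₀ v₀, ← hC₀, ← hB₀, hD]
    ring
  have hid : 4 * C * C₀ - D ^ 2 = (3 * T) ^ 2 * Δ := by
    rw [hC, hD, hΔd]; ring
  have hSpos : (0 : ℤ) < S := by exact_mod_cast hS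
  have hTpos : (0 : ℤ) < T := by exact_mod_cast hT
  have hCpos : 0 < C := by
    by_contra hcon
    have h1 : 4 * C * C₀ ≤ 0 := by nlinarith
    have h2 : 0 < (3 * (T : ℤ)) ^ 2 * Δ := by positivity
    nlinarith [sq_nonneg D]
  -- `C` is not divisible by the primes dividing `6 T Δ`
  have hprime : ∀ p : ℕ, p.Prime → (p : ℤ) ∣ C → ¬ p = 3 ∧ ¬ p ∣ S ∧ ¬ p ∣ T := by
    intro p hp hpC
    have hp' : Prime (p : ℤ) := Nat.prime_iff_prime_int.1 hp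
    have hS3 : ¬ 3 ∣ S := by
      intro h
      have h4 := hSC 3 Nat.prime_three h
      have : (3 : ℤ) ∣ C₀ := Int.natCast_dvd.2 h4
      omega
    have hp3 : p ≠ 3 := by
      rintro rfl
      have h4 : ((3 : ℕ) : ℤ) ∣ (S : ℤ) ^ 2 * C₀ := by
        have : (S : ℤ) ^ 2 * C₀ = C - (3 : ℕ) * (3 * T ^ 2 * A₀ + S * T * B₀) := by
          rw [hC]; push_cast; ring
        rw [this]
        exact dvd_sub hpC (dvd_mul_right _ _)
      rcases hp'.dvd_or_dvd h4 with h5 | h5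
      · apply hS3
        have := hp'.dvd_of_dvd_pow h5
        exact_mod_cast this
      · push_cast at h5
        omega
    refine ⟨hp3, ?_, ?_⟩
    · intro h
      have h4 : (p : ℤ) ∣ C₀ := Int.natCast_dvd.2 (hSC p hp h)
      obtain ⟨m, hm⟩ := h
      have h5 : (p : ℤ) ∣ (3 * T : ℤ) ^ 2 * A₀ := by
        have : (3 * T : ℤ) ^ 2 * A₀ = C - (S : ℤ) ^ 2 * C₀ - p * (m * (3 * T) * B₀) := by
          rw [hC, hm]; push_cast; ring
        rw [this]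
        exact dvd_sub (dvd_sub hpC (Dvd.dvd.mul_left h4 _)) (dvd_mul_right _ _)
      rcases hp'.dvd_or_dvd h5 with h6 | h6
      · have h7 : p ∣ 3 * T := by
          have := hp'.dvd_of_dvd_pow h6
          exact_mod_cast this
        rcases hp.dvd_mul.1 h7 with h8 | h8
        · exact hp3 ((Nat.prime_dvd_prime_iff_eq hp Nat.prime_three).1 h8)
        · exact hTC p hp h8 (Int.natCast_dvd.1 h4)
      · obtain ⟨a, b, hab⟩ := hcop
        have : (p : ℤ) ∣ 1 := by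
          rw [← hab]
          exact dvd_add (Dvd.dvd.mul_left h4 _) (Dvd.dvd.mul_left h6 _)
        exact hp'.not_isUnit (isUnit_of_dvd_one this)
    · intro h
      have h4 : ¬ (p : ℤ) ∣ C₀ := fun h5 => hTC p hp h (Int.natCast_dvd.1 h5)
      have h4' : ¬ p ∣ S := fun h5 => h4 (Int.natCast_dvd.2 (hSC p hp h5))
      obtain ⟨m, hm⟩ := h
      have h5 : (p : ℤ) ∣ (S : ℤ) ^ 2 * C₀ := by
        have : (S : ℤ) ^ 2 * C₀ = C - p * (m * (9 * T) * A₀ + S * (3 * m) * B₀) := by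
          rw [hC, hm]; push_cast; ring
        rw [this]
        exact dvd_sub hpC (dvd_mul_right _ _)
      rcases hp'.dvd_or_dvd h5 with h6 | h6
      · apply h4'
        have := hp'.dvd_of_dvd_pow h6
        exact_mod_cast this
      · exact h4 h6
  have hprime2 : ∀ p : ℕ, p.Prime → (p : ℤ) ∣ C → ¬ (p : ℤ) ∣ 2 * Δ := by
    intro p hp hpC h
    obtain ⟨-, h1, h2⟩ := hprime p hp hpC
    exact (hST p hp (Int.natCast_dvd.1 h)).elim h1 h2
  -- natural numbers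
  obtain ⟨c, hc⟩ : ∃ c : ℕ, (c : ℤ) = C := ⟨C.toNat, Int.toNat_of_nonneg hCpos.le⟩
  obtain ⟨d, hd⟩ : ∃ d : ℕ, (d : ℤ) = (3 * T) ^ 2 * Δ := ⟨((3 * T) ^ 2 * Δ).toNat,
    Int.toNat_of_nonneg (by positivity)⟩
  have hdpos : 0 < d := by
    have : (0 : ℤ) < d := by rw [hd]; positivity
    exact_mod_cast this
  have hcpos : 0 < c := by
    have : (0 : ℤ) < c := by rw [hc]; exact hCpos
    exact_mod_cast this
  have hc2 : c % 2 = 1 := by
    by_contra hcon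
    have h1 : ((2 : ℕ) : ℤ) ∣ C := by rw [← hc]; push_cast; omega
    exact hprime2 2 Nat.prime_two h1 (by push_cast; exact dvd_mul_right _ _)
  have hc3 : c % 3 = 1 := by
    have hS3 : (S : ℤ) % 3 = 1 ∨ (S : ℤ) % 3 = 2 := by
      have : ¬ 3 ∣ S := by
        intro h
        have h4 := hSC 3 Nat.prime_three h
        have : (3 : ℤ) ∣ C₀ := Int.natCast_dvd.2 h4
        omega
      omega
    have h1 : (S : ℤ) ^ 2 % 3 = 1 := by
      rcases hS3 with h | h <;> rw [pow_two, Int.mul_emod, h] <;> norm_num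
    have h2 : C % 3 = 1 := by
      have h4 : C = (S : ℤ) ^ 2 * C₀ + 3 * (3 * T ^ 2 * A₀ + S * T * B₀) := by rw [hC]; ring
      rw [h4, Int.add_mul_emod_self_left, Int.mul_emod, h1, h3]
      norm_num
    omega
  have hcd : c.Coprime d := by
    rw [Nat.coprime_iff_gcd_eq_one]
    by_contra hne
    obtain ⟨p, hp, hpd⟩ := Nat.exists_prime_and_dvd hne
    have h1 : (p : ℤ) ∣ C := by
      rw [← hc]
      exact Int.natCast_dvd_natCast.2 (hpd.trans (Nat.gcd_dvd_left _ _))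
    have h2 : (p : ℤ) ∣ (3 * T) ^ 2 * Δ := by
      rw [← hd]
      exact Int.natCast_dvd_natCast.2 (hpd.trans (Nat.gcd_dvd_right _ _))
    obtain ⟨h4, -, h5⟩ := hprime p hp h1
    have hp' : Prime (p : ℤ) := Nat.prime_iff_prime_int.1 hp
    rcases hp'.dvd_or_dvd h2 with h6 | h6
    · have h7 : p ∣ 3 * T := by
        have := hp'.dvd_of_dvd_pow h6
        exact_mod_cast this
      rcases hp.dvd_mul.1 h7 with h8 | h8
      · exact h4 ((Nat.prime_dvd_prime_iff_eq hp Nat.prime_three).1 h8)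
      · exact h5 h8
    · exact hprime2 p hp h1 (Dvd.dvd.mul_left h6 2)
  obtain ⟨ℓ, x, y, z, hℓ, hℓ3, hz, h⟩ := exists_prime_conic (D := D) hcpos hdpos hc2 hc3 hcd
    ⟨4 * C₀, by rw [hc, hd]; linear_combination -hid⟩
  rw [hc, hd] at h
  obtain ⟨v₁, hv₁⟩ : ∃ v₁, v₁ = (S : ℤ) • v₀ + (3 * T : ℤ) • w₀ := ⟨_, rfl⟩
  rw [← hv₁] at hFv hBv
  refine ⟨(x - D * y) • v₁ + (2 * C * y) • v₀, ℓ, C * z, hℓ, hℓ3, mul_ne_zero hCpos.ne' hz, ?_⟩
  rw [hF.F_comb, hFv, hBv, ← hC₀]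
  linear_combination C * h + C * y ^ 2 * hid

/-- values prime to a given number -/
theorem exists_coprime (hF : IsQuad F B) (h : ∀ p : ℕ, p.Prime → ∃ v, ¬ (p : ℤ) ∣ F v) (n : ℕ)
    (hn : n ≠ 0) : ∃ w, ∀ p : ℕ, p.Prime → p ∣ n → ¬ (p : ℤ) ∣ F w := by
  induction n using Nat.recOnPosPrimePosCoprime with
  | zero => exact absurd rfl hn
  | one => exact ⟨0, fun p hp h => absurd (Nat.dvd_one.1 h) hp.one_lt.ne'⟩
  | prime_pow p k hp hk =>
    obtain ⟨v, hv⟩ := h p hp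
    refine ⟨v, fun q hq hd => ?_⟩
    have : q = p := (Nat.prime_dvd_prime_iff_eq hq hp).1 (hq.dvd_of_dvd_pow hd)
    rwa [this]
  | coprime a b ha hb hab iha ihb =>
    obtain ⟨wa, h1⟩ := iha (by omega)
    obtain ⟨wb, h2⟩ := ihb (by omega)
    obtain ⟨u, v, huv⟩ : IsCoprime (a : ℤ) (b : ℤ) := Nat.isCoprime_iff_coprime.2 hab
    refine ⟨(v * b) • wa + (u * a) • wb, fun p hp hd hcon => ?_⟩
    rw [hF.F_comb] at hcon
    rcases (hp.dvd_mul).1 hd with h | h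
    · obtain ⟨k, hk⟩ : (p : ℤ) ∣ a := Int.natCast_dvd_natCast.2 h
      apply h1 p hp h
      have e : F wa = ((v * b) ^ 2 * F wa + (u * a) ^ 2 * F wb + v * b * (u * a) * B wa wb) -
          p * (k * ((u * a) * u * F wb + v * b * u * B wa wb - (u + u * (v * b)) * F wa)) := by
        have h5 : v * b = 1 - u * a := by linarith
        rw [h5, hk]
        ring
      rw [e]
      exact dvd_sub hcon (dvd_mul_right _ _)
    · obtain ⟨k, hk⟩ : (p : ℤ) ∣ b := Int.natCast_dvd_natCast.2 h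
      apply h2 p hp h
      have e : F wb = ((v * b) ^ 2 * F wa + (u * a) ^ 2 * F wb + v * b * (u * a) * B wa wb) -
          p * (k * ((v * b) * v * F wa + u * a * v * B wa wb - (v + v * (u * a)) * F wb)) := by
        have h5 : u * a = 1 - v * b := by linarith
        rw [h5, hk]
        ring
      rw [e]
      exact dvd_sub hcon (dvd_mul_right _ _)

end Pool.Agent.Q168.TW
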