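import Pool.Agent.Q168.TW.Prim

/-!
# Isotropic vectors with a prescribed product

`F` is an integral quadratic form, `lam` a vector with `F lam = 1`, and `p₀` an isotropic vector orthogonal
to `lam`. If there are hyperbolic planes modulo all primes and the orthogonal complement of `lam`, `p₀` is
large enough, then there is an isotropic vector `p` with `B lam p = 1`.
-/

set_option autoImplicit false

namespace Pool.Agent.Q168.TW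

/-- a root of `x^2 - x - c` modulo a power of `ℓ` -/
theorem exists_alpha {ℓ c : ℤ} (hc : ℓ ∣ c) (K : ℕ) :
    ∃ α : ℤ, ℓ ∣ α ∧ ℓ ^ (K + 1) ∣ α ^ 2 - α - c := by
  induction K with
  | zero => exact ⟨0, dvd_zero _, by simpa using hc⟩
  | succ K ih =>
    obtain ⟨α, h1, h2⟩ := ih
    refine ⟨α ^ 2 - c, dvd_sub (Dvd.dvd.mul_right h1 α |>.trans (by rw [pow_two])) hc, ?_⟩
    have h3 : (α ^ 2 - c) ^ 2 - (α ^ 2 - c) - c = (α ^ 2 - α - c) * (α ^ 2 - c + α) := by ring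
    rw [h3, pow_succ]
    refine mul_dvd_mul h2 ?_
    exact dvd_add (dvd_sub (dvd_pow h1 two_ne_zero) hc) h1

variable {M : Type} [AddCommGroup M] {F : M → ℤ} {B : M → M → ℤ}

/-- the local vectors -/
theorem local_w (hF : IsQuad F B) {lam p₀ x₀ x₁ : M} (h1 : F lam = 1) (hx₁ : B lam x₁ = 1)
    {e : ℤ} (he : e ≠ 0) {μ : M →+ ℤ} (hμ : ∀ x, e * μ x = B p₀ x) (hμ0 : μ x₀ = 1)
    (h0 : B lam p₀ = 0) {ℓ : ℤ} (hℓ : Prime ℓ) {p y : M} (hp : ℓ ∣ F p) (hy : ¬ ℓ ∣ B p y)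
    (K : ℕ) :
    ∃ w, ℓ ^ (K + 1) ∣ F w ∧ ℓ ^ (K + 1) ∣ B lam w - 1 ∧ ¬ ℓ ^ 2 ∣ μ w := by
  have hμl : μ lam = 0 := by
    have := hμ lam
    rw [hF.comm, h0] at this
    exact (mul_eq_zero.1 this).resolve_left he
  obtain ⟨φ, hφ⟩ : ∃ φ : M →+ ℤ, ∀ x, φ x = B lam x :=
    ⟨hF.homL lam, fun x => by simp [IsQuad.homL, hF.comm lam x]⟩
  obtain ⟨w, hw1, hw2, -⟩ := hF.local_vector hℓ hp hy φ (x₀ := x₁)
    (by rw [hφ, hx₁]; exact fun h => hℓ.not_isUnit (isUnit_of_dvd_one h)) K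
  rw [hφ] at hw2
  obtain ⟨u, s, hus⟩ : IsCoprime (ℓ ^ (K + 1)) (B lam w) :=
    IsCoprime.pow_left ((hℓ.coprime_iff_not_dvd).2 hw2)
  obtain ⟨q, hq⟩ : ∃ q, q = ℓ ^ (K + 1) := ⟨_, rfl⟩
  rw [← hq] at hw1 hus ⊢
  obtain ⟨a', ha'⟩ := hw1
  obtain ⟨w₁, hw₁⟩ : ∃ w₁, w₁ = s • w := ⟨_, rfl⟩
  obtain ⟨a, ha⟩ : ∃ a, F w₁ = q * a := ⟨s ^ 2 * a', by rw [hw₁, hF.F_smul, ha']; ring⟩
  obtain ⟨b, hb⟩ : ∃ b, B lam w₁ = 1 + q * b :=
    ⟨-u, by rw [hw₁, hF.smul_right]; linarith⟩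
  by_cases hd : ℓ ^ 2 ∣ μ w₁
  swap
  · exact ⟨w₁, ⟨a, ha⟩, ⟨b, by rw [hb]; ring⟩, hd⟩
  obtain ⟨w₂, hw₂⟩ : ∃ w₂, w₂ = lam - w₁ := ⟨_, rfl⟩
  have hFw₂ : F w₂ = q * (a - b) := by
    have h3 : w₂ = (1 : ℤ) • lam + (-1 : ℤ) • w₁ := by
      rw [hw₂, one_smul, neg_one_smul, sub_eq_add_neg]
    rw [h3, hF.F_comb, h1, ha, hb]; ring
  have hB12 : B w₁ w₂ = 1 + q * (b - 2 * a) := by
    rw [hw₂, hF.sub_right, hF.self, hF.comm w₁ lam, ha, hb]; ring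
  have hμ2 : μ w₂ = - μ w₁ := by rw [hw₂, map_sub, hμl, zero_sub]
  obtain ⟨i, hi⟩ : ∃ i, i = B x₀ w₁ := ⟨_, rfl⟩
  obtain ⟨j, hj⟩ : ∃ j, j = B x₀ w₂ := ⟨_, rfl⟩
  obtain ⟨y₀, hy₀⟩ : ∃ y₀, y₀ = (1 : ℤ) • x₀ + (-j) • w₁ + (-i) • w₂ := ⟨_, rfl⟩
  have hBy1 : B w₁ y₀ = q * (-2 * a * j - i * (b - 2 * a)) := by
    rw [hy₀, hF.add_right, hF.add_right, hF.smul_right, hF.smul_right, hF.smul_right, hF.self,
      hF.comm w₁ x₀, ← hi, hB12, ha]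
    ring
  have hBy2 : B w₂ y₀ = q * (-2 * (a - b) * i - j * (b - 2 * a)) := by
    rw [hy₀, hF.add_right, hF.add_right, hF.smul_right, hF.smul_right, hF.smul_right, hF.self,
      hF.comm w₂ x₀, ← hj, hF.comm w₂ w₁, hB12, hFw₂]
    ring
  have hBl : B lam y₀ = B w₁ y₀ + B w₂ y₀ := by
    rw [← hF.add_left, hw₂, add_sub_cancel]
  have hμy : μ y₀ = 1 + (i - j) * μ w₁ := by
    rw [hy₀]
    simp only [map_add, map_zsmul, smul_eq_mul, hμ2, hμ0]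
    ring
  obtain ⟨α, -, k, hk⟩ := exists_alpha (ℓ := ℓ) (c := ℓ ^ 2 * F y₀)
    (Dvd.dvd.mul_right (dvd_pow_self ℓ two_ne_zero) _) K
  rw [← hq] at hk
  refine ⟨α • w₁ + (1 - α) • w₂ + ℓ • y₀, ?_, ?_, ?_⟩
  · rw [hF.F_comb3, ha, hFw₂, hB12, hBy1, hBy2]
    exact ⟨α ^ 2 * a + (1 - α) ^ 2 * (a - b) + α * (1 - α) * (b - 2 * a) +
      α * ℓ * (-2 * a * j - i * (b - 2 * a)) +
      (1 - α) * ℓ * (-2 * (a - b) * i - j * (b - 2 * a)) - k, by linear_combination -hk⟩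
  · have h3 : B lam w₂ = 1 - q * b := by
      rw [hw₂, hF.sub_right, hF.self, h1, hb]; ring
    rw [hF.add_right, hF.add_right, hF.smul_right, hF.smul_right, hF.smul_right, hb, h3, hBl, hBy1,
      hBy2]
    exact ⟨α * b - (1 - α) * b + ℓ * ((-2 * a * j - i * (b - 2 * a)) +
      (-2 * (a - b) * i - j * (b - 2 * a))), by ring⟩
  · intro hcon
    simp only [map_add, map_zsmul, smul_eq_mul, hμ2, hμy] at hcon
    obtain ⟨m, hm⟩ := hd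
    rw [hm] at hcon
    have h3 : ℓ ^ 2 ∣ ℓ := by
      have h4 : (α * (ℓ ^ 2 * m) + (1 - α) * -(ℓ ^ 2 * m) + ℓ * (1 + (i - j) * (ℓ ^ 2 * m))) -
          ℓ ^ 2 * ((2 * α - 1) * m + ℓ * (i - j) * m) = ℓ := by ring
      have h5 := dvd_sub hcon (dvd_mul_right (ℓ ^ 2) ((2 * α - 1) * m + ℓ * (i - j) * m))
      rw [h4] at h5
      exact h5
    obtain ⟨n, hn⟩ := h3
    have h5 : ℓ * (ℓ * n) = ℓ * 1 := by linear_combination -hn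
    have h6 := mul_left_cancel₀ hℓ.ne_zero h5
    exact hℓ.not_isUnit (isUnit_of_dvd_one ⟨n, h6.symm⟩)

/-- the Chinese remainder theorem for the local vectors -/
theorem crt_w (hF : IsQuad F B) (lam : M) (μ : M →+ ℤ) (n : ℕ) (hn : n ≠ 0)
    (hsq : ∀ ℓ : ℕ, ℓ.Prime → ℓ ∣ n → ℓ ^ 2 ∣ n)
    (hloc : ∀ ℓ : ℕ, ℓ.Prime → ∀ K : ℕ,
      ∃ w, (ℓ : ℤ) ^ (K + 1) ∣ F w ∧ (ℓ : ℤ) ^ (K + 1) ∣ B lam w - 1 ∧ ¬ (ℓ : ℤ) ^ 2 ∣ μ w) :
    ∃ w, (n : ℤ) ∣ F w ∧ (n : ℤ) ∣ B lam w - 1 ∧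
      ∀ ℓ : ℕ, ℓ.Prime → ℓ ∣ n → ¬ (ℓ : ℤ) ^ 2 ∣ μ w := by
  induction n using Nat.recOnPosPrimePosCoprime with
  | zero => exact absurd rfl hn
  | one => exact ⟨0, by simp, by simp, fun ℓ hℓ h => absurd (Nat.dvd_one.1 h) hℓ.one_lt.ne'⟩
  | prime_pow p k hp hk =>
    obtain ⟨w, h1, h2, h3⟩ := hloc p hp (k - 1)
    rw [Nat.sub_add_cancel hk] at h1 h2
    refine ⟨w, by push_cast; exact h1, by push_cast; exact h2, fun ℓ hℓ h => ?_⟩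
    have : ℓ = p := (Nat.prime_dvd_prime_iff_eq hℓ hp).1 (hℓ.dvd_of_dvd_pow h)
    subst this
    exact h3
  | coprime a b ha hb hab iha ihb =>
    have hsqa : ∀ ℓ : ℕ, ℓ.Prime → ℓ ∣ a → ℓ ^ 2 ∣ a := by
      intro ℓ hℓ h
      have h1 := hsq ℓ hℓ (Dvd.dvd.mul_right h b)
      refine Nat.Coprime.dvd_of_dvd_mul_right (Nat.Coprime.pow_left 2 ?_) h1
      exact Nat.Coprime.coprime_dvd_left h hab
    have hsqb : ∀ ℓ : ℕ, ℓ.Prime → ℓ ∣ b → ℓ ^ 2 ∣ b := by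
      intro ℓ hℓ h
      have h1 := hsq ℓ hℓ (Dvd.dvd.mul_left h a)
      refine Nat.Coprime.dvd_of_dvd_mul_left (Nat.Coprime.pow_left 2 ?_) h1
      exact Nat.Coprime.coprime_dvd_left h hab.symm
    obtain ⟨wa, ha1, ha2, ha3⟩ := iha (by omega) hsqa
    obtain ⟨wb, hb1, hb2, hb3⟩ := ihb (by omega) hsqb
    obtain ⟨u, v, huv⟩ : IsCoprime (a : ℤ) (b : ℤ) := Nat.isCoprime_iff_coprime.2 hab
    refine ⟨(v * b) • wa + (u * a) • wb, ?_, ?_, fun ℓ hℓ h => ?_⟩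
    · rw [hF.F_comb]
      obtain ⟨x, hx⟩ := ha1
      obtain ⟨y, hy⟩ := hb1
      rw [hx, hy]
      push_cast
      exact ⟨v ^ 2 * b * x + u ^ 2 * a * y + v * u * B wa wb, by ring⟩
    · rw [hF.add_right, hF.smul_right, hF.smul_right]
      obtain ⟨x, hx⟩ := ha2
      obtain ⟨y, hy⟩ := hb2
      have hx' : B lam wa = 1 + a * x := by linarith
      have hy' : B lam wb = 1 + b * y := by linarith
      rw [hx', hy']
      push_cast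
      exact ⟨v * x + u * y, by linear_combination huv⟩
    · rcases (hℓ.dvd_mul).1 h with h | h
      · obtain ⟨k, hk⟩ : (ℓ : ℤ) ^ 2 ∣ a := by exact_mod_cast hsqa ℓ hℓ h
        intro hcon
        apply ha3 ℓ hℓ h
        rw [map_add, map_zsmul, map_zsmul, smul_eq_mul, smul_eq_mul] at hcon
        have h4 : μ wa = (v * b * μ wa + u * a * μ wb) - ℓ ^ 2 * (k * (u * (μ wb - μ wa))) := by
          have : v * b = 1 - u * a := by linarith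
          rw [this, hk]; ring
        rw [h4]
        exact dvd_sub hcon (dvd_mul_right _ _)
      · obtain ⟨k, hk⟩ : (ℓ : ℤ) ^ 2 ∣ b := by exact_mod_cast hsqb ℓ hℓ h
        intro hcon
        apply hb3 ℓ hℓ h
        rw [map_add, map_zsmul, map_zsmul, smul_eq_mul, smul_eq_mul] at hcon
        have h4 : μ wb = (v * b * μ wa + u * a * μ wb) - ℓ ^ 2 * (k * (v * (μ wa - μ wb))) := by
          have : u * a = 1 - v * b := by linarith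
          rw [this, hk]; ring
        rw [h4]
        exact dvd_sub hcon (dvd_mul_right _ _)

/-- a value divisible by a large prime number -/
theorem exists_value (hF : IsQuad F B) {y₁ y₂ w : M} (hy : B y₁ y₂ = 0) {P : ℕ} (hP : P.Prime)
    (hP2 : P ≠ 2) {N : ℤ} (hN : ¬ (P : ℤ) ∣ N) (h1 : ¬ (P : ℤ) ∣ F y₁) (h2 : ¬ (P : ℤ) ∣ F y₂) :
    ∃ a b : ℤ, (P : ℤ) ∣ F (w + N • (a • y₁ + b • y₂)) := by
  have : Fact P.Prime := ⟨hP⟩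
  have hP' : Prime (P : ℤ) := Nat.prime_iff_prime_int.1 hP
  have hc : ∀ n : ℤ, ¬ (P : ℤ) ∣ n → ((n : ℤ) : ZMod P) ≠ 0 := fun n hn h =>
    hn ((ZMod.intCast_zmod_eq_zero_iff_dvd n P).1 h)
  have hodd : Fintype.card (ZMod P) % 2 = 1 := by
    rw [ZMod.card]
    exact (hP.eq_two_or_odd).resolve_left hP2
  have e1 : ((N ^ 2 * F y₁ : ℤ) : ZMod P) ≠ 0 := hc _ fun h => by
    rcases hP'.dvd_or_dvd h with h | h
    · exact hN (hP'.dvd_of_dvd_pow h)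
    · exact h1 h
  have e2 : ((N ^ 2 * F y₂ : ℤ) : ZMod P) ≠ 0 := hc _ fun h => by
    rcases hP'.dvd_or_dvd h with h | h
    · exact hN (hP'.dvd_of_dvd_pow h)
    · exact h2 h
  obtain ⟨x, y, hxy⟩ := FiniteField.exists_root_sum_quadratic (R := ZMod P)
    (f := Polynomial.C ((N ^ 2 * F y₁ : ℤ) : ZMod P) * Polynomial.X ^ 2 +
      Polynomial.C ((N * B w y₁ : ℤ) : ZMod P) * Polynomial.X + Polynomial.C ((F w : ℤ) : ZMod P))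
    (g := Polynomial.C ((N ^ 2 * F y₂ : ℤ) : ZMod P) * Polynomial.X ^ 2 +
      Polynomial.C ((N * B w y₂ : ℤ) : ZMod P) * Polynomial.X + Polynomial.C 0)
    (Polynomial.degree_quadratic e1) (Polynomial.degree_quadratic e2) hodd
  simp only [Polynomial.eval_add, Polynomial.eval_mul, Polynomial.eval_pow, Polynomial.eval_X,
    Polynomial.eval_C] at hxy
  obtain ⟨a, ha⟩ := ZMod.intCast_surjective x
  obtain ⟨b, hb⟩ := ZMod.intCast_surjective y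
  refine ⟨a, b, ?_⟩
  have e3 : F (w + N • (a • y₁ + b • y₂)) = N ^ 2 * F y₁ * a ^ 2 + N * B w y₁ * a + F w +
      (N ^ 2 * F y₂ * b ^ 2 + N * B w y₂ * b + 0) := by
    rw [hF.F_add, hF.F_smul, hF.F_comb, hF.smul_right, hF.add_right, hF.smul_right, hF.smul_right, hy]
    ring
  rw [e3, ← ZMod.intCast_zmod_eq_zero_iff_dvd]
  push_cast
  rw [ha, hb]
  push_cast at hxy
  exact hxy

/-- **An isotropic vector with product one.** -/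
theorem exists_isotropic_one (hF : IsQuad F B) {lam p₀ x₁ y₁ y₂ : M} (h1 : F lam = 1)
    (hx₁ : B lam x₁ = 1) (hp₀ : F p₀ = 0) (h0 : B lam p₀ = 0) (hne : ∃ x, B p₀ x ≠ 0)
    (hloc : ∀ ℓ : ℕ, ℓ.Prime → ∃ p y, (ℓ : ℤ) ∣ F p ∧ ¬ (ℓ : ℤ) ∣ B p y)
    (hy1 : B lam y₁ = 0) (hy2 : B lam y₂ = 0) (hy3 : B p₀ y₁ = 0) (hy4 : B p₀ y₂ = 0)
    (hy5 : B y₁ y₂ = 0) (hy6 : F y₁ ≠ 0) (hy7 : F y₂ ≠ 0) : ∃ p, F p = 0 ∧ B lam p = 1 := by
  -- the divisor of `p₀`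
  obtain ⟨φ, hφ⟩ : ∃ φ : M →+ ℤ, ∀ x, φ x = B p₀ x :=
    ⟨hF.homL p₀, fun x => by simp [IsQuad.homL, hF.comm p₀ x]⟩
  obtain ⟨e, he⟩ := Int.subgroup_cyclic φ.range
  have hdvd : ∀ x, e ∣ B p₀ x := by
    intro x
    have : φ x ∈ AddSubgroup.closure {e} := by rw [← he]; exact ⟨x, rfl⟩
    rw [AddSubgroup.mem_closure_singleton] at this
    obtain ⟨n, hn⟩ := this
    exact ⟨n, by rw [← hφ, ← hn, smul_eq_mul, mul_comm]⟩
  have hem : e ∈ φ.range := by rw [he]; exact AddSubgroup.mem_closure_singleton_self e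
  obtain ⟨x₀, hx₀⟩ := hem
  rw [hφ] at hx₀
  have he0 : e ≠ 0 := by
    rintro rfl
    obtain ⟨x, hx⟩ := hne
    exact hx (zero_dvd_iff.1 (hdvd x))
  obtain ⟨μ, hμ⟩ : ∃ μ : M →+ ℤ, ∀ x, e * μ x = B p₀ x := by
    refine ⟨AddMonoidHom.mk' (fun x => B p₀ x / e) fun x y => ?_, fun x => ?_⟩
    · show B p₀ (x + y) / e = B p₀ x / e + B p₀ y / e
      rw [hF.add_right, Int.add_ediv_of_dvd_left (hdvd x)]
    · show e * (B p₀ x / e) = B p₀ x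
      exact Int.mul_ediv_cancel' (hdvd x)
  have hμ0 : μ x₀ = 1 := by
    have := hμ x₀
    rw [hx₀] at this
    exact mul_left_cancel₀ he0 (by rw [this, mul_one])
  have hμz : ∀ x, B p₀ x = 0 → μ x = 0 := by
    intro x hx
    have := hμ x
    rw [hx] at this
    exact (mul_eq_zero.1 this).resolve_left he0
  have hμl : μ lam = 0 := hμz _ (by rw [hF.comm, h0])
  -- the modulus
  obtain ⟨N, hN⟩ : ∃ N : ℕ, N = 4 * e.natAbs ^ 3 := ⟨_, rfl⟩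
  have hen : 0 < e.natAbs := Int.natAbs_pos.2 he0
  have hN0 : 0 < N := by rw [hN]; positivity
  have hNp : ∀ ℓ : ℕ, ℓ.Prime → ℓ ∣ N → ℓ = 2 ∨ ℓ ∣ e.natAbs := by
    intro ℓ hℓ h
    rw [hN] at h
    rcases (hℓ.dvd_mul).1 h with h | h
    · left
      have : ℓ ∣ 2 ^ 2 := by simpa using h
      exact (Nat.prime_dvd_prime_iff_eq hℓ Nat.prime_two).1 (hℓ.dvd_of_dvd_pow this)
    · exact Or.inr (hℓ.dvd_of_dvd_pow h)
  have hNsq : ∀ ℓ : ℕ, ℓ.Prime → ℓ ∣ N → ℓ ^ 2 ∣ N := by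
    intro ℓ hℓ h
    rcases hNp ℓ hℓ h with h | ⟨k, hk⟩
    · rw [h, hN]; exact ⟨e.natAbs ^ 3, by ring⟩
    · rw [hN, hk]; exact ⟨4 * ℓ * k ^ 3, by ring⟩
  obtain ⟨w₁, ⟨f₁, hf₁⟩, ⟨j, hj⟩, hw₁⟩ := crt_w hF lam μ N hN0.ne' hNsq fun ℓ hℓ K => by
    obtain ⟨p, y, hp, hy⟩ := hloc ℓ hℓ
    exact local_w hF h1 hx₁ he0 hμ hμ0 h0 (Nat.prime_iff_prime_int.1 hℓ) hp hy K
  -- exact product one
  obtain ⟨w₂, hw₂⟩ : ∃ w₂, w₂ = w₁ + (-(N * j)) • x₁ := ⟨_, rfl⟩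
  have hB2 : B lam w₂ = 1 := by
    rw [hw₂, hF.add_right, hF.smul_right, hx₁]
    linarith
  obtain ⟨f₂, hf₂⟩ : ∃ f₂, F w₂ = N * f₂ :=
    ⟨f₁ + j ^ 2 * N * F x₁ - j * B w₁ x₁, by
      rw [hw₂, hF.F_add, hF.F_smul, hF.smul_right, hf₁]; ring⟩
  have hμ2 : ∀ ℓ : ℕ, ℓ.Prime → ℓ ∣ N → ¬ (ℓ : ℤ) ^ 2 ∣ μ w₂ := by
    intro ℓ hℓ h hcon
    apply hw₁ ℓ hℓ h
    obtain ⟨k, hk⟩ : (ℓ : ℤ) ^ 2 ∣ (N : ℤ) := by exact_mod_cast hNsq ℓ hℓ h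
    have h4 : μ w₁ = μ w₂ + ℓ ^ 2 * (k * (j * μ x₁)) := by
      rw [hw₂, map_add, map_zsmul, smul_eq_mul, hk]; ring
    rw [h4]
    exact dvd_add hcon (dvd_mul_right _ _)
  -- a vector orthogonal to `lam`
  obtain ⟨x₂, hx₂⟩ : ∃ x₂, x₂ = (2 : ℤ) • x₀ + (-(B lam x₀)) • lam := ⟨_, rfl⟩
  have hBx₂ : B lam x₂ = 0 := by
    rw [hx₂, hF.add_right, hF.smul_right, hF.smul_right, hF.self, h1]; ring
  have hμx₂ : μ x₂ = 2 := by
    rw [hx₂]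
    simp only [map_add, map_zsmul, smul_eq_mul, hμ0, hμl]
    norm_num
  -- Dirichlet's theorem
  obtain ⟨δ, hδ⟩ : ∃ δ : ℤ, δ = Int.gcd (μ w₂) (2 * N) := ⟨_, rfl⟩
  have hδne : Int.gcd (μ w₂) (2 * N) ≠ 0 := by
    intro h
    have := (Int.gcd_eq_zero_iff.1 h).2
    omega
  have hδpos : 0 < δ := by
    rw [hδ]; exact_mod_cast Nat.pos_of_ne_zero hδne
  obtain ⟨σ, hσ⟩ : δ ∣ μ w₂ := by rw [hδ]; exact Int.gcd_dvd_left ..
  obtain ⟨N', hN'⟩ : δ ∣ 2 * N := by rw [hδ]; exact Int.gcd_dvd_right ..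
  have hcop : IsCoprime σ N' := by
    have h2 : Int.gcd (δ * σ) (δ * N') = Int.gcd (μ w₂) (2 * N) := by rw [← hσ, ← hN']
    rw [Int.gcd_mul_left] at h2
    rw [Int.isCoprime_iff_gcd_eq_one]
    have h3 : δ.natAbs = Int.gcd (μ w₂) (2 * N) := by
      rw [hδ]; simp
    rw [h3] at h2
    exact Nat.eq_of_mul_eq_mul_left (Nat.pos_of_ne_zero hδne) (by rw [h2, mul_one])
  have hN'pos : 0 < N' := by
    by_contra hcon
    have h2 : δ * N' ≤ 0 := mul_nonpos_of_nonneg_of_nonpos hδpos.le (by omega)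
    have h3 : (0 : ℤ) < 2 * N := by
      have : (0 : ℤ) < N := by exact_mod_cast hN0
      omega
    omega
  obtain ⟨n', hn'⟩ : ∃ n' : ℕ, (n' : ℤ) = N' := ⟨N'.toNat, Int.toNat_of_nonneg hN'pos.le⟩
  rw [← hn'] at hcop
  obtain ⟨P, hPgt, hP, hPr⟩ := Nat.forall_exists_prime_gt_and_zmodEq
    (N + (F y₁).natAbs + (F y₂).natAbs + 2) (q := n') (by rintro rfl; push_cast at hn'; omega) hcop
  obtain ⟨t, ht⟩ := hPr.dvd
  rw [hn'] at ht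
  -- `σ - P = N' t`
  obtain ⟨w₃, hw₃⟩ : ∃ w₃, w₃ = w₂ + (-(N * t)) • x₂ := ⟨_, rfl⟩
  have hB3 : B lam w₃ = 1 := by
    rw [hw₃, hF.add_right, hF.smul_right, hBx₂, hB2]; ring
  have hμ3 : μ w₃ = δ * P := by
    rw [hw₃, map_add, map_zsmul, smul_eq_mul, hμx₂, hσ]
    have h2 : (P : ℤ) = σ - N' * t := by linarith
    rw [h2]
    linear_combination -t * hN'
  obtain ⟨f₃, hf₃⟩ : ∃ f₃, F w₃ = N * f₃ :=
    ⟨f₂ + t ^ 2 * N * F x₂ - t * B w₂ x₂, by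
      rw [hw₃, hF.F_add, hF.F_smul, hF.smul_right, hf₂]; ring⟩
  have hPN : ¬ P ∣ N := fun h => absurd (Nat.le_of_dvd hN0 h) (by omega)
  have hPN' : ¬ (P : ℤ) ∣ (N : ℤ) := fun h => hPN (Int.natCast_dvd_natCast.1 h)
  have hPy : ∀ n : ℤ, n ≠ 0 → n.natAbs < P → ¬ (P : ℤ) ∣ n := by
    intro n hn hlt h
    have := Nat.le_of_dvd (Int.natAbs_pos.2 hn) (Int.natCast_dvd.1 h)
    omega
  obtain ⟨a, b, hab⟩ := exists_value hF (w := w₃) hy5 hP (by omega) hPN' (hPy _ hy6 (by omega))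
    (hPy _ hy7 (by omega))
  obtain ⟨w, hw⟩ : ∃ w, w = w₃ + (N : ℤ) • (a • y₁ + b • y₂) := ⟨_, rfl⟩
  rw [← hw] at hab
  have hBw : B lam w = 1 := by
    rw [hw, hF.add_right, hF.smul_right, hF.add_right, hF.smul_right, hF.smul_right, hy1, hy2, hB3]
    ring
  have hμw : μ w = δ * P := by
    rw [hw]
    simp only [map_add, map_zsmul, smul_eq_mul, hμz _ hy3, hμz _ hy4, hμ3]
    ring
  have hNw : (N : ℤ) ∣ F w := by
    rw [hw, hF.F_add, hF.F_smul, hF.smul_right, hf₃]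
    exact ⟨f₃ + N * F (a • y₁ + b • y₂) + B w₃ (a • y₁ + b • y₂), by ring⟩
  -- `e δ` divides `N`
  have hδN : e * δ ∣ (N : ℤ) := by
    obtain ⟨d, hd⟩ : ∃ d : ℕ, (d : ℤ) = δ := ⟨δ.toNat, Int.toNat_of_nonneg hδpos.le⟩
    have hdp : ∀ ℓ : ℕ, ℓ.Prime → ℓ ∣ d → ℓ ∣ N := by
      intro ℓ hℓ h
      have h2 : (ℓ : ℤ) ∣ 2 * N := by
        have h3 : (ℓ : ℤ) ∣ δ := by rw [← hd]; exact Int.natCast_dvd_natCast.2 h
        exact h3.trans ⟨N', hN'⟩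
      have h3 : ℓ ∣ 2 * N := by exact_mod_cast h2
      rcases (hℓ.dvd_mul).1 h3 with h4 | h4
      · rw [(Nat.prime_dvd_prime_iff_eq hℓ Nat.prime_two).1 h4, hN]
        exact ⟨2 * e.natAbs ^ 3, by ring⟩
      · exact h4
    have hsf : Squarefree d := by
      rw [Nat.squarefree_iff_prime_squarefree]
      intro ℓ hℓ h
      have h2 : ℓ ∣ d := (Dvd.intro _ rfl : ℓ ∣ ℓ * ℓ).trans h
      apply hμ2 ℓ hℓ (hdp ℓ hℓ h2)
      rw [hσ, ← hd]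
      have h3 : (ℓ : ℤ) ^ 2 ∣ (d : ℤ) := by
        rw [pow_two]
        exact_mod_cast h
      exact Dvd.dvd.mul_right h3 σ
    have hd2 : d ∣ 4 * e.natAbs ^ 2 := by
      rw [← Nat.prod_primeFactors_of_squarefree hsf]
      refine Finset.prod_primes_dvd _ (fun ℓ hℓ => (Nat.prime_of_mem_primeFactors hℓ).prime) ?_
      intro ℓ hℓ
      have hℓp := Nat.prime_of_mem_primeFactors hℓ
      rcases hNp ℓ hℓp (hdp ℓ hℓp (Nat.dvd_of_mem_primeFactors hℓ)) with h | ⟨k, hk⟩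
      · rw [h]; exact ⟨2 * e.natAbs ^ 2, by ring⟩
      · rw [hk]; exact ⟨4 * ℓ * k ^ 2, by ring⟩
    obtain ⟨k, hk⟩ := hd2
    have h2 : e ∣ (e.natAbs : ℤ) := Int.dvd_natAbs.2 dvd_rfl
    obtain ⟨m, hm⟩ := h2
    refine ⟨m * k, ?_⟩
    have h3 : (N : ℤ) = e.natAbs * (4 * e.natAbs ^ 2 : ℕ) := by rw [hN]; push_cast; ring
    rw [h3, hk, hm, ← hd]
    push_cast
    ring
  have hPcop : IsCoprime (e * δ) (P : ℤ) := by
    have hP' : Prime (P : ℤ) := Nat.prime_iff_prime_int.1 hP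
    exact ((hP'.coprime_iff_not_dvd).2 fun h => hPN' (h.trans hδN)).symm
  obtain ⟨c, hc⟩ := hPcop.mul_dvd (hδN.trans hNw) hab
  have hβ : B p₀ w = e * δ * P := by rw [← hμ, hμw]; ring
  refine ⟨w + (-c) • p₀, ?_, ?_⟩
  · rw [hF.F_add, hF.F_smul, hF.smul_right, hp₀, hF.comm w p₀, hβ, hc]; ring
  · rw [hF.add_right, hF.smul_right, h0, hBw]; ring

end Pool.Agent.Q168.TW
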