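import Pool.Agent.Q168.TW.Prim

/-!
# Infinitely many isotropic vectors with a primitive component in `A₂`

The vector `w` in `exists_prim` may be changed by elements of the lattice spanned by `A₁` and `A₂` such
that `F w` is as large as we like.
-/

set_option autoImplicit false

namespace Pool.Agent.Q168.TW

/-- large prime numbers `1` modulo `3` in an arithmetic progression, up to the sign -/
theorem exists_prime_prog_gt {s n : ℤ} (hn : 0 < n) (hsn : IsCoprime s n) (K : ℕ) :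
    ∃ (t : ℤ) (P : ℕ), P.Prime ∧ K < P ∧ P % 3 = 1 ∧ (s + n * t).natAbs = P := by
  -- a residue `r = ± (s + n j)` with `r ≡ 1 mod 3`
  obtain ⟨ε, j, hε, hr⟩ : ∃ ε j : ℤ, (ε = 1 ∨ ε = -1) ∧ (ε * (s + n * j)) % 3 = 1 := by
    by_cases h3 : (3 : ℤ) ∣ n
    · have hs3 : ¬ (3 : ℤ) ∣ s := by
        intro h
        obtain ⟨u, v, huv⟩ := hsn
        have : (3 : ℤ) ∣ 1 := by
          rw [← huv]
          exact dvd_add (Dvd.dvd.mul_left h u) (Dvd.dvd.mul_left h3 v)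
        omega
      have : s % 3 = 1 ∨ s % 3 = 2 := by omega
      rcases this with h | h
      · exact ⟨1, 0, Or.inl rfl, by rw [mul_zero, add_zero, one_mul]; exact h⟩
      · exact ⟨-1, 0, Or.inr rfl, by rw [mul_zero, add_zero]; omega⟩
    · refine ⟨1, (1 - s) * n, Or.inl rfl, ?_⟩
      have hn3 : n % 3 = 1 ∨ n % 3 = 2 := by omega
      obtain ⟨k, hk⟩ : ∃ k, n * n = 3 * k + 1 := by
        rcases hn3 with h | h
        · obtain ⟨q, hq⟩ : ∃ q, n = 3 * q + 1 := ⟨n / 3, by omega⟩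
          exact ⟨3 * q ^ 2 + 2 * q, by rw [hq]; ring⟩
        · obtain ⟨q, hq⟩ : ∃ q, n = 3 * q + 2 := ⟨n / 3, by omega⟩
          exact ⟨3 * q ^ 2 + 4 * q + 1, by rw [hq]; ring⟩
      have h1 : 1 * (s + n * ((1 - s) * n)) = 1 + 3 * (k * (1 - s)) := by
        have : n * ((1 - s) * n) = (n * n) * (1 - s) := by ring
        rw [this, hk]
        ring
      rw [h1]
      omega
  obtain ⟨r, hrdef⟩ : ∃ r, r = ε * (s + n * j) := ⟨_, rfl⟩
  rw [← hrdef] at hr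
  have hεε : ε * ε = 1 := by rcases hε with h | h <;> rw [h] <;> norm_num
  have hcop : IsCoprime r (3 * n) := by
    have h1 : IsCoprime r n := by
      rw [hrdef]
      have h2 : IsCoprime (s + n * j) n := IsCoprime.add_mul_left_left hsn j
      refine IsCoprime.mul_left ?_ h2
      exact ⟨ε, 0, by rw [hεε]; ring⟩
    have h3 : IsCoprime r 3 := by
      refine ⟨1, -(r / 3), ?_⟩
      omega
    exact IsCoprime.mul_right h3 h1
  obtain ⟨q, hq⟩ : ∃ q : ℕ, (q : ℤ) = 3 * n := ⟨(3 * n).toNat, Int.toNat_of_nonneg (by omega)⟩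
  have hq0 : q ≠ 0 := by rintro rfl; push_cast at hq; omega
  rw [← hq] at hcop
  obtain ⟨P, hPK, hP, hPr⟩ := Nat.forall_exists_prime_gt_and_zmodEq K hq0 hcop
  rw [hq] at hPr
  obtain ⟨i, hi⟩ := hPr.dvd
  -- `r - P = 3 n i`
  refine ⟨j - ε * (3 * i), P, hP, hPK, ?_, ?_⟩
  · have h1 : (P : ℤ) = r - 3 * (n * i) := by linarith
    omega
  · have h2 : s + n * (j - ε * (3 * i)) = ε * P := by
      have h3 : (P : ℤ) = r - 3 * n * i := by linarith
      rw [h3, hrdef]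
      linear_combination -(s + n * j) * hεε
    rw [h2, Int.natAbs_mul]
    rcases hε with h | h <;> rw [h] <;> simp

/-- a quadratic polynomial in a large number is large -/
theorem large_of_large {c f K t n' : ℤ} (hn' : 1 ≤ n') (ht : |c| + |K| + |f| + 1 ≤ |t|) :
    K < f + 6 * (t * c + 6 * t ^ 2 * n') := by
  have h0 : 0 ≤ |c| := abs_nonneg c
  have h1 : K ≤ |K| := le_abs_self K
  have h2 : -|f| ≤ f := neg_abs_le f
  have h3 : 0 ≤ |K| := abs_nonneg K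
  have h4 : 0 ≤ |f| := abs_nonneg f
  have h5 : t ^ 2 = |t| ^ 2 := (sq_abs t).symm
  have h6 : -(|t| * |c|) ≤ t * c := by
    rw [← abs_mul]; exact neg_abs_le _
  have h7 : |t| * |c| ≤ |t| ^ 2 := by nlinarith [abs_nonneg t]
  have h8 : |t| ≤ |t| ^ 2 := by nlinarith [abs_nonneg t]
  have h9 : t ^ 2 * 1 ≤ t ^ 2 * n' := mul_le_mul_of_nonneg_left hn' (sq_nonneg t)
  rw [h5] at h9
  have h10 : t ^ 2 * n' = |t| ^ 2 * n' := by rw [h5]
  nlinarith

variable {M : Type} [AddCommGroup M] {F : M → ℤ} {B : M → M → ℤ}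

/-- **Infinitely many isotropic vectors with a primitive component in `A₂`.** -/
theorem prim_family (hF : IsQuad F B) {A₁ A₂ : M} (hA : IsA2 F B A₁ A₂) {p₀ y₀ : M} (h0 : F p₀ = 0)
    (h1 : B p₀ y₀ = 1) (hneg : ∀ x, B A₁ x = 0 → B A₂ x = 0 → F x = 0 → ∀ y, B x y = 0)
    {w : M} (hw : B p₀ w = 1)
    (hn2 : ¬ ((2 : ℤ) ∣ B A₂ (F w • p₀ - w) ∧ (2 : ℤ) ∣ B A₁ (F w • p₀ - w)))
    (hn3 : ¬ ((3 : ℤ) ∣ B A₂ (F w • p₀ - w) ∧ (3 : ℤ) ∣ B A₁ (F w • p₀ - w))) (K : ℤ) :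
    ∃ (w' : M) (α β : ℤ), w' = w + (α • A₁ + β • A₂) ∧ B p₀ w' = 1 ∧ K < F w' ∧
      ¬ ((3 : ℤ) ∣ B A₂ (F w' • p₀ - w') ∧ (3 : ℤ) ∣ B A₁ (F w' • p₀ - w')) ∧
      ∀ ℓ : ℕ, ℓ.Prime → ℓ % 3 = 2 →
        ¬ ((ℓ : ℤ) ∣ B A₂ (F w' • p₀ - w') ∧ (ℓ : ℤ) ∣ B A₁ (F w' • p₀ - w')) := by
  -- the component of `p₀`: `a₀ = - B A₂ p₀ = g₀ a`, `b₀ = B A₁ p₀ = g₀ b`
  obtain ⟨g, hg⟩ : ∃ g : ℤ, g = Int.gcd (B A₂ p₀) (B A₁ p₀) := ⟨_, rfl⟩
  have hne : Int.gcd (B A₂ p₀) (B A₁ p₀) ≠ 0 := by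
    intro h
    obtain ⟨h2, h3⟩ := Int.gcd_eq_zero_iff.1 h
    have := hneg p₀ h3 h2 h0 y₀
    rw [h1] at this
    exact one_ne_zero this
  obtain ⟨a, ha⟩ : g ∣ B A₂ p₀ := by rw [hg]; exact Int.gcd_dvd_left ..
  obtain ⟨b, hb⟩ : g ∣ B A₁ p₀ := by rw [hg]; exact Int.gcd_dvd_right ..
  have hab : IsCoprime a b := by
    have h2 : Int.gcd (g * a) (g * b) = Int.gcd (B A₂ p₀) (B A₁ p₀) := by rw [ha, hb]
    rw [Int.gcd_mul_left] at h2
    rw [Int.isCoprime_iff_gcd_eq_one]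
    have h3 : g.natAbs = Int.gcd (B A₂ p₀) (B A₁ p₀) := by
      rw [hg]; simp
    rw [h3] at h2
    exact Nat.eq_of_mul_eq_mul_left (Nat.pos_of_ne_zero hne) (by rw [h2, mul_one])
  -- `s₀ = - a A₁ + b A₂`
  obtain ⟨s₀, hs₀⟩ : ∃ s₀, s₀ = (-a) • A₁ + b • A₂ := ⟨_, rfl⟩
  have hB1 : B s₀ p₀ = 0 := by
    rw [hs₀, hF.add_left, hF.smul_left, hF.smul_left, ha, hb]; ring
  obtain ⟨n', hn'⟩ : ∃ n', n' = a ^ 2 + a * b + b ^ 2 := ⟨_, rfl⟩
  have hFs : F s₀ = n' := by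
    rw [hs₀, hF.F_comb, hA.one, hA.two, hA.cross, hn']; ring
  have hn'pos : 0 < n' := by
    obtain ⟨u, v, huv⟩ := hab
    by_contra hcon
    have h2 : a ^ 2 + a * b + b ^ 2 ≤ 0 := by rw [← hn']; omega
    have h3 : a = 0 := by nlinarith [sq_nonneg (a + b), sq_nonneg a, sq_nonneg b]
    have h4 : b = 0 := by nlinarith [sq_nonneg (a + b), sq_nonneg a, sq_nonneg b]
    rw [h3, h4] at huv
    simp at huv
  -- the prime number
  obtain ⟨σ, hσ⟩ : ∃ σ, σ = B s₀ w := ⟨_, rfl⟩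
  obtain ⟨δ, hδ⟩ : ∃ δ : ℤ, δ = Int.gcd σ (12 * n') := ⟨_, rfl⟩
  have hδne : Int.gcd σ (12 * n') ≠ 0 := by
    intro h
    have := (Int.gcd_eq_zero_iff.1 h).2
    omega
  have hδpos : 0 < δ := by
    rw [hδ]; exact_mod_cast Nat.pos_of_ne_zero hδne
  obtain ⟨σ', hσ'⟩ : δ ∣ σ := by rw [hδ]; exact Int.gcd_dvd_left ..
  obtain ⟨N, hN⟩ : δ ∣ 12 * n' := by rw [hδ]; exact Int.gcd_dvd_right ..
  have hcop : IsCoprime σ' N := by
    have h2 : Int.gcd (δ * σ') (δ * N) = Int.gcd σ (12 * n') := by rw [← hσ', ← hN]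
    rw [Int.gcd_mul_left] at h2
    rw [Int.isCoprime_iff_gcd_eq_one]
    have h3 : δ.natAbs = Int.gcd σ (12 * n') := by
      rw [hδ]; simp
    rw [h3] at h2
    exact Nat.eq_of_mul_eq_mul_left (Nat.pos_of_ne_zero hδne) (by rw [h2, mul_one])
  have hNpos : 0 < N := by
    by_contra hcon
    have : δ * N ≤ 0 := mul_nonpos_of_nonneg_of_nonpos hδpos.le (by omega)
    omega
  obtain ⟨T, hT⟩ : ∃ T : ℤ, T = |B w s₀| + |K| + |F w| + 1 := ⟨_, rfl⟩
  obtain ⟨t, P, hP, hPK, hP3, hPt⟩ := exists_prime_prog_gt hNpos hcop (|σ'| + N * T).toNat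
  have htbig : T ≤ |t| := by
    by_contra hcon
    push Not at hcon
    have e1 : |σ' + N * t| = (P : ℤ) := by rw [Int.abs_eq_natAbs, hPt]
    have e2 : |σ' + N * t| ≤ |σ'| + N * |t| := by
      refine (abs_add_le _ _).trans ?_
      rw [abs_mul, abs_of_pos hNpos]
    have e3 : N * |t| ≤ N * T := mul_le_mul_of_nonneg_left hcon.le hNpos.le
    have e4 : |σ'| + N * T < P := by omega
    omega
  -- the new vector
  obtain ⟨w', hw'⟩ : ∃ w', w' = w + (6 * t) • s₀ := ⟨_, rfl⟩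
  have hw'1 : B p₀ w' = 1 := by
    rw [hw', hF.add_right, hF.smul_right, hw, hF.comm p₀ s₀, hB1]; ring
  have hFw' : F w' = F w + 6 * (t * B w s₀ + 6 * t ^ 2 * n') := by
    rw [hw', hF.F_add, hF.F_smul, hF.smul_right, hFs]; ring
  have key : ∀ z, B z (F w' • p₀ - w') = B z (F w • p₀ - w) +
      6 * ((t * B w s₀ + 6 * t ^ 2 * n') * B z p₀ - t * B z s₀) := by
    intro z
    rw [hF.sub_right, hF.smul_right, hFw', hF.sub_right, hF.smul_right, hw', hF.add_right,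
      hF.smul_right]
    ring
  have hσp : B s₀ (F w' • p₀ - w') = -(δ * (σ' + N * t)) := by
    have h2 : δ * (σ' + N * t) = σ + 12 * n' * t := by rw [hσ', hN]; ring
    rw [hF.sub_right, hF.smul_right, hB1, hw', hF.add_right, hF.smul_right, hF.self, hFs, ← hσ, h2]
    ring
  refine ⟨w', 6 * t * (-a), 6 * t * b, ?_, hw'1, ?_, ?_, ?_⟩
  · rw [hw', hs₀, smul_add, smul_smul, smul_smul]
  · rw [hFw']
    refine large_of_large (by omega) ?_
    rw [← hT]; exact htbig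
  · rintro ⟨h2, h3⟩
    rw [key] at h2 h3
    have e : ∀ x : ℤ, (3 : ℤ) ∣ 6 * x := fun x => ⟨2 * x, by ring⟩
    exact hn3 ⟨(Int.dvd_add_left (e _)).1 h2, (Int.dvd_add_left (e _)).1 h3⟩
  · rintro ℓ hℓ hℓ3 ⟨h2, h3⟩
    have hℓ' : Prime (ℓ : ℤ) := Nat.prime_iff_prime_int.1 hℓ
    have h4 : (ℓ : ℤ) ∣ δ * (σ' + N * t) := by
      rw [← dvd_neg, ← hσp, hs₀, hF.add_left, hF.smul_left, hF.smul_left]
      exact dvd_add (Dvd.dvd.mul_left h3 _) (Dvd.dvd.mul_left h2 _)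
    have h5 : (ℓ : ℤ) ∣ δ := by
      rcases hℓ'.dvd_or_dvd h4 with h | h
      · exact h
      · exfalso
        have h6 : ℓ ∣ P := by
          rw [← hPt]
          exact Int.natCast_dvd.1 h
        have h7 : ℓ = P := (Nat.prime_dvd_prime_iff_eq hℓ hP).1 h6
        omega
    have h8 : (ℓ : ℤ) ∣ 12 * n' := h5.trans ⟨N, hN⟩
    have hℓ2 : ℓ ≠ 2 := by
      rintro rfl
      rw [key] at h2 h3
      have e : ∀ x : ℤ, ((2 : ℕ) : ℤ) ∣ 6 * x := fun x => ⟨3 * x, by push_cast; ring⟩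
      refine hn2 ⟨?_, ?_⟩
      · have := (Int.dvd_add_left (e _)).1 h2
        exact_mod_cast this
      · have := (Int.dvd_add_left (e _)).1 h3
        exact_mod_cast this
    rcases hℓ'.dvd_or_dvd h8 with h | h
    · have h9 : ℓ ∣ 12 := by exact_mod_cast h
      have h10 : ℓ ∣ 2 ^ 2 * 3 := by simpa using h9
      rcases (hℓ.dvd_mul).1 h10 with h11 | h11
      · exact hℓ2 ((Nat.prime_dvd_prime_iff_eq hℓ Nat.prime_two).1 (hℓ.dvd_of_dvd_pow h11))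
      · have := (Nat.prime_dvd_prime_iff_eq hℓ Nat.prime_three).1 h11
        omega
    · have h9 : (ℓ : ℤ) ∣ (-a) ^ 2 - (-a) * b + b ^ 2 := by
        rw [hn'] at h
        have : (-a) ^ 2 - (-a) * b + b ^ 2 = a ^ 2 + a * b + b ^ 2 := by ring
        rw [this]
        exact h
      obtain ⟨h10, h11⟩ := inert_dvd hℓ hℓ3 h9
      obtain ⟨u, v, huv⟩ := hab
      have : (ℓ : ℤ) ∣ 1 := by
        rw [← huv]
        exact dvd_add (Dvd.dvd.mul_left (dvd_neg.1 h10) u) (Dvd.dvd.mul_left h11 v)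
      exact hℓ'.not_isUnit (isUnit_of_dvd_one this)

end Pool.Agent.Q168.TW
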