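import Mathlib

/-!
# Integral quadratic forms with isotropic vectors: finding a hyperbolic plane

`F` is an integral quadratic form on an abelian group, `B` its polar form. If there is an isotropic
vector `p₀` with `B p₀ ≠ 0` and, for every prime number `ℓ`, a vector `p` with `ℓ ∣ F p` for which
`B p` is not zero modulo `ℓ`, then there is a hyperbolic plane.
-/

set_option autoImplicit false

namespace Pool.Agent.Q168.TW

/-- `F` is a quadratic form with polar form `B` -/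
structure IsQuad {M : Type} [AddCommGroup M] (F : M → ℤ) (B : M → M → ℤ) : Prop where
  add_left : ∀ x y z, B (x + y) z = B x z + B y z
  comm : ∀ x y, B x y = B y x
  F_add : ∀ x y, F (x + y) = F x + F y + B x y
  F_smul : ∀ (n : ℤ) x, F (n • x) = n ^ 2 * F x

namespace IsQuad

variable {M : Type} [AddCommGroup M] {F : M → ℤ} {B : M → M → ℤ} (hF : IsQuad F B)
include hF

theorem add_right (x y z : M) : B x (y + z) = B x y + B x z := by
  rw [hF.comm, hF.add_left, hF.comm y, hF.comm z]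

/-- the polar form as a homomorphism in the first variable -/
def homL (y : M) : M →+ ℤ := AddMonoidHom.mk' (fun x => B x y) fun a b => hF.add_left a b y

theorem smul_left (n : ℤ) (x y : M) : B (n • x) y = n * B x y := by
  have := map_zsmul (hF.homL y) n x
  simpa [homL] using this

theorem smul_right (n : ℤ) (x y : M) : B x (n • y) = n * B x y := by
  rw [hF.comm, hF.smul_left, hF.comm]

theorem neg_left (x y : M) : B (-x) y = - B x y := by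
  have := hF.smul_left (-1) x y
  rw [neg_one_smul, neg_one_mul] at this
  exact this

theorem sub_left (x y z : M) : B (x - y) z = B x z - B y z := by
  rw [sub_eq_add_neg, hF.add_left, hF.neg_left]; ring

theorem sub_right (x y z : M) : B x (y - z) = B x y - B x z := by
  rw [hF.comm, hF.sub_left, hF.comm y, hF.comm z]

theorem self (x : M) : B x x = 2 * F x := by
  have h1 := hF.F_add x x
  have h2 := hF.F_smul 2 x
  rw [two_smul] at h2
  linarith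

theorem F_neg (x : M) : F (-x) = F x := by
  have := hF.F_smul (-1) x
  rw [neg_one_smul] at this
  rw [this]; ring

theorem F_comb (a b : ℤ) (x y : M) :
    F (a • x + b • y) = a ^ 2 * F x + b ^ 2 * F y + a * b * B x y := by
  rw [hF.F_add, hF.F_smul, hF.F_smul, hF.smul_left, hF.smul_right]; ring

theorem F_comb3 (a b c : ℤ) (x y z : M) :
    F (a • x + b • y + c • z) = a ^ 2 * F x + b ^ 2 * F y + c ^ 2 * F z +
      (a * b * B x y + a * c * B x z + b * c * B y z) := by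
  rw [hF.F_add, hF.F_comb, hF.F_smul, hF.add_left, hF.smul_left, hF.smul_left, hF.smul_right,
    hF.smul_right]; ring

/-- Hensel's lemma: the value of `F` can be made divisible by high powers of `ℓ` -/
theorem hensel {ℓ : ℤ} (hℓ : Prime ℓ) {p y : M} (h1 : ℓ ∣ F p) (h2 : ¬ ℓ ∣ B p y) (K : ℕ) :
    ∃ p', ℓ ^ (K + 1) ∣ F p' ∧ ¬ ℓ ∣ B p' y ∧ ∃ x, p' = p + ℓ • x := by
  induction K with
  | zero => exact ⟨p, by simpa using h1, h2, 0, by simp⟩
  | succ K ih =>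
    obtain ⟨p', ⟨c, hc⟩, h4, x, hx⟩ := ih
    have hcop : IsCoprime ℓ (B p' y) := (hℓ.coprime_iff_not_dvd).2 h4
    obtain ⟨u, v, huv⟩ := hcop
    -- `v * B p' y ≡ 1`
    refine ⟨p' + (ℓ ^ (K + 1) * (-(c * v))) • y, ?_, ?_, x + (ℓ ^ K * (-(c * v))) • y, ?_⟩
    · rw [hF.F_add, hF.F_smul, hF.smul_right, hc]
      refine ⟨c * u + ℓ ^ K * (c * v) ^ 2 * F y, ?_⟩
      have h5 : v * B p' y = 1 - u * ℓ := by linarith
      have h6 : ℓ ^ (K + 1) * (-(c * v)) * B p' y = ℓ ^ (K + 1) * (-c) * (v * B p' y) := by ring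
      rw [h6, h5]
      ring
    · rw [hF.add_left, hF.smul_left]
      intro hcon
      apply h4
      have h7 : ℓ ∣ ℓ ^ (K + 1) * (-(c * v)) * B y y :=
        Dvd.dvd.mul_right (Dvd.dvd.mul_right (dvd_pow_self ℓ (Nat.succ_ne_zero K)) _) _
      exact (Int.dvd_add_left h7).1 hcon
    · rw [hx, smul_add, add_assoc, smul_smul]
      congr 3
      ring

/-- a hyperbolic pair modulo a power of `ℓ` -/
theorem pair {ℓ : ℤ} (hℓ : Prime ℓ) {p y : M} (h1 : ℓ ∣ F p) (h2 : ¬ ℓ ∣ B p y) (K : ℕ) :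
    ∃ p' y', ℓ ^ (K + 1) ∣ F p' ∧ ℓ ^ (K + 1) ∣ F y' ∧ ℓ ^ (K + 1) ∣ B p' y' - 1 := by
  obtain ⟨p', h3, h4, -⟩ := hF.hensel hℓ h1 h2 K
  have hcop : IsCoprime (ℓ ^ (K + 1)) (B p' y) :=
    IsCoprime.pow_left ((hℓ.coprime_iff_not_dvd).2 h4)
  obtain ⟨u, v, huv⟩ := hcop
  obtain ⟨c, hc⟩ := h3
  refine ⟨p', v • y - F (v • y) • p', ⟨c, hc⟩, ?_, ?_⟩
  · obtain ⟨f, hf⟩ : ∃ f, f = F (v • y) := ⟨_, rfl⟩
    rw [← hf]
    have h5 : v • y - f • p' = (1 : ℤ) • (v • y) + (-f) • p' := by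
      rw [one_smul, neg_smul, sub_eq_add_neg]
    rw [h5, hF.F_comb, ← hf, hF.smul_left, hF.comm y p', hc]
    refine ⟨f ^ 2 * c + f * u, ?_⟩
    have h6 : v * B p' y = 1 - u * ℓ ^ (K + 1) := by linarith
    rw [h6]
    ring
  · rw [hF.sub_right, hF.smul_right, hF.smul_right, hF.self, hc]
    refine ⟨-u - F (v • y) * (2 * c), ?_⟩
    have h6 : v * B p' y = 1 - u * ℓ ^ (K + 1) := by linarith
    rw [h6]
    ring

/-- the local lemma: an isotropic vector modulo `ℓ ^ (K + 1)` on which a given functional is not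
zero modulo `ℓ` -/
theorem local_vector {ℓ : ℤ} (hℓ : Prime ℓ) {p y : M} (h1 : ℓ ∣ F p) (h2 : ¬ ℓ ∣ B p y)
    (lam : M →+ ℤ) {x₀ : M} (hx₀ : ¬ ℓ ∣ lam x₀) (K : ℕ) :
    ∃ w, ℓ ^ (K + 1) ∣ F w ∧ ¬ ℓ ∣ lam w ∧ ∃ y, ¬ ℓ ∣ B w y := by
  obtain ⟨p, y, ⟨a, ha⟩, ⟨b, hb⟩, ⟨c, hc⟩⟩ := hF.pair hℓ h1 h2 K
  have hc' : B p y = 1 + ℓ ^ (K + 1) * c := by linarith
  have hℓK : ℓ ∣ ℓ ^ (K + 1) := dvd_pow_self ℓ (Nat.succ_ne_zero K)
  have hpy : ¬ ℓ ∣ B p y := by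
    rw [hc']
    intro hcon
    have : ℓ ∣ 1 := (Int.dvd_add_left (Dvd.dvd.mul_right hℓK c)).1 hcon
    exact hℓ.not_isUnit (isUnit_of_dvd_one this)
  by_cases hp : ℓ ∣ lam p
  swap
  · exact ⟨p, ⟨a, ha⟩, hp, y, hpy⟩
  by_cases hy : ℓ ∣ lam y
  swap
  · exact ⟨y, ⟨b, hb⟩, hy, p, by rwa [hF.comm]⟩
  obtain ⟨s, hs⟩ : ∃ s, s = B x₀ y := ⟨_, rfl⟩
  obtain ⟨t, ht⟩ : ∃ t, t = B x₀ p := ⟨_, rfl⟩
  obtain ⟨m, hm⟩ : ∃ m, m = (1 : ℤ) • x₀ + (-s) • p + (-t) • y := ⟨_, rfl⟩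
  have hpp : B p p = 2 * (ℓ ^ (K + 1) * a) := by rw [hF.self, ha]
  have hyy : B y y = 2 * (ℓ ^ (K + 1) * b) := by rw [hF.self, hb]
  have hpm : B p m = ℓ ^ (K + 1) * (- s * 2 * a - t * c) := by
    rw [hm, hF.add_right, hF.add_right, hF.smul_right, hF.smul_right, hF.smul_right, hpp, hc',
      hF.comm p x₀, ← ht]
    ring
  have hym : B y m = ℓ ^ (K + 1) * (- t * 2 * b - s * c) := by
    rw [hm, hF.add_right, hF.add_right, hF.smul_right, hF.smul_right, hF.smul_right, hyy,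
      hF.comm y p, hc', hF.comm y x₀, ← hs]
    ring
  obtain ⟨f, hf⟩ : ∃ f, f = F m := ⟨_, rfl⟩
  refine ⟨(1 : ℤ) • p + (1 : ℤ) • m + (-f) • y, ?_, ?_, y, ?_⟩
  · rw [hF.F_comb3, ha, hb, ← hf, hpm, hc', hF.comm m y, hym]
    exact ⟨a + f ^ 2 * b + (- s * 2 * a - t * c) - f * c - f * (- t * 2 * b - s * c), by ring⟩
  · intro hcon
    apply hx₀
    have h3 : lam ((1 : ℤ) • p + (1 : ℤ) • m + (-f) • y) = lam x₀ + ((1 - s) * lam p +
        (-t - f) * lam y) := by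
      rw [hm]
      simp only [map_add, map_zsmul, smul_eq_mul, one_mul, one_smul]
      ring
    rw [h3] at hcon
    exact (Int.dvd_add_left (dvd_add (Dvd.dvd.mul_left hp _) (Dvd.dvd.mul_left hy _))).1 hcon
  · rw [hF.add_left, hF.add_left, hF.smul_left, hF.smul_left, hF.smul_left, hc', hF.comm m y, hym, hyy]
    intro hcon
    have h4 : 1 * (1 + ℓ ^ (K + 1) * c) + 1 * (ℓ ^ (K + 1) * (-t * 2 * b - s * c)) +
        -f * (2 * (ℓ ^ (K + 1) * b)) = 1 + ℓ ^ (K + 1) * (c + (-t * 2 * b - s * c) - f * 2 * b) := by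
      ring
    rw [h4] at hcon
    have : ℓ ∣ 1 := (Int.dvd_add_left (Dvd.dvd.mul_right hℓK _)).1 hcon
    exact hℓ.not_isUnit (isUnit_of_dvd_one this)

/-- the Chinese remainder theorem for the local vectors -/
theorem crt (lam : M →+ ℤ) (n : ℕ) (hn : n ≠ 0)
    (hloc : ∀ ℓ : ℕ, ℓ.Prime → ℓ ∣ n → ∀ K : ℕ,
      ∃ w, (ℓ : ℤ) ^ (K + 1) ∣ F w ∧ ¬ (ℓ : ℤ) ∣ lam w ∧ ∃ y, ¬ (ℓ : ℤ) ∣ B w y) :
    ∃ w, (n : ℤ) ∣ F w ∧ ∀ ℓ : ℕ, ℓ.Prime → ℓ ∣ n → ¬ (ℓ : ℤ) ∣ lam w ∧ ∃ y, ¬ (ℓ : ℤ) ∣ B w y := by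
  induction n using Nat.recOnPosPrimePosCoprime with
  | zero => exact absurd rfl hn
  | one => exact ⟨0, by simp, fun ℓ hℓ h => absurd (Nat.dvd_one.1 h) hℓ.one_lt.ne'⟩
  | prime_pow p k hp hk =>
    obtain ⟨w, h1, h2, h3⟩ := hloc p hp (dvd_pow_self p hk.ne') (k - 1)
    rw [Nat.sub_add_cancel hk] at h1
    refine ⟨w, by push_cast; exact h1, fun ℓ hℓ h => ?_⟩
    have : ℓ = p := (Nat.prime_dvd_prime_iff_eq hℓ hp).1 (hℓ.dvd_of_dvd_pow h)
    subst this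
    exact ⟨h2, h3⟩
  | coprime a b ha hb hab iha ihb =>
    obtain ⟨wa, ha1, ha2⟩ := iha (by omega) fun ℓ hℓ h => hloc ℓ hℓ (Dvd.dvd.mul_right h b)
    obtain ⟨wb, hb1, hb2⟩ := ihb (by omega) fun ℓ hℓ h => hloc ℓ hℓ (Dvd.dvd.mul_left h a)
    obtain ⟨u, v, huv⟩ : IsCoprime (a : ℤ) (b : ℤ) := Nat.isCoprime_iff_coprime.2 hab
    -- `u a + v b = 1`
    refine ⟨(v * b) • wa + (u * a) • wb, ?_, fun ℓ hℓ h => ?_⟩
    · rw [hF.F_comb]
      obtain ⟨x, hx⟩ := ha1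
      obtain ⟨y, hy⟩ := hb1
      rw [hx, hy]
      push_cast
      exact ⟨v ^ 2 * b * x + u ^ 2 * a * y + v * u * B wa wb, by ring⟩
    · have hℓ' : Prime (ℓ : ℤ) := Nat.prime_iff_prime_int.1 hℓ
      rcases (hℓ.dvd_mul).1 h with h | h
      · obtain ⟨h3, y, h4⟩ := ha2 ℓ hℓ h
        have hla : (ℓ : ℤ) ∣ a := Int.natCast_dvd_natCast.2 h
        have key : ∀ s t : ℤ, (ℓ : ℤ) ∣ (v * b) * s + (u * a) * t → (ℓ : ℤ) ∣ s := by
          intro s t hst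
          have h5 : (v * b) * s + (u * a) * t = s + a * (u * (t - s)) := by
            have : v * b = 1 - u * a := by linarith
            rw [this]; ring
          rw [h5] at hst
          exact (Int.dvd_add_left (Dvd.dvd.mul_right hla _)).1 hst
        refine ⟨fun hcon => h3 (key _ (lam wb) ?_), y, fun hcon => h4 (key _ (B wb y) ?_)⟩
        · simpa only [map_add, map_zsmul, smul_eq_mul] using hcon
        · rwa [hF.add_left, hF.smul_left, hF.smul_left] at hcon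
      · obtain ⟨h3, y, h4⟩ := hb2 ℓ hℓ h
        have hlb : (ℓ : ℤ) ∣ b := Int.natCast_dvd_natCast.2 h
        have key : ∀ s t : ℤ, (ℓ : ℤ) ∣ (v * b) * s + (u * a) * t → (ℓ : ℤ) ∣ t := by
          intro s t hst
          have h5 : (v * b) * s + (u * a) * t = t + b * (v * (s - t)) := by
            have : u * a = 1 - v * b := by linarith
            rw [this]; ring
          rw [h5] at hst
          exact (Int.dvd_add_left (Dvd.dvd.mul_right hlb _)).1 hst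
        refine ⟨fun hcon => h3 (key (lam wa) _ ?_), y, fun hcon => h4 (key (B wa y) _ ?_)⟩
        · simpa only [map_add, map_zsmul, smul_eq_mul] using hcon
        · rwa [hF.add_left, hF.smul_left, hF.smul_left] at hcon

omit hF in
/-- a homomorphism to `ℤ` which is not zero modulo any prime number is onto -/
theorem exists_one (φ : M →+ ℤ) (h : ∀ ℓ : ℕ, ℓ.Prime → ∃ y, ¬ (ℓ : ℤ) ∣ φ y) : ∃ y, φ y = 1 := by
  obtain ⟨g, hg⟩ := Int.subgroup_cyclic φ.range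
  have hmem : ∀ y, g ∣ φ y := by
    intro y
    have : φ y ∈ AddSubgroup.closure {g} := by rw [← hg]; exact ⟨y, rfl⟩
    rw [AddSubgroup.mem_closure_singleton] at this
    obtain ⟨n, hn⟩ := this
    exact ⟨n, by rw [← hn, smul_eq_mul, mul_comm]⟩
  have hg1 : g.natAbs = 1 := by
    by_contra hne
    obtain ⟨ℓ, hℓ, hd⟩ := Nat.exists_prime_and_dvd hne
    obtain ⟨y, hy⟩ := h ℓ hℓ
    exact hy ((Int.natCast_dvd.2 hd).trans (hmem y))
  have hgm : g ∈ φ.range := by rw [hg]; exact AddSubgroup.mem_closure_singleton_self g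
  obtain ⟨y, hy⟩ := hgm
  rcases Int.natAbs_eq g with h1 | h1
  · exact ⟨y, by rw [hy, h1, hg1]; rfl⟩
  · exact ⟨-y, by rw [map_neg, hy, h1, hg1]; rfl⟩

/-- **A hyperbolic plane.** -/
theorem exists_hyperbolic {p₀ : M} (h0 : F p₀ = 0) (hne : ∃ x, B p₀ x ≠ 0)
    (hloc : ∀ ℓ : ℕ, ℓ.Prime → ∃ p y, (ℓ : ℤ) ∣ F p ∧ ¬ (ℓ : ℤ) ∣ B p y) :
    ∃ p y, F p = 0 ∧ F y = 0 ∧ B p y = 1 := by
  -- the divisor `e` of `p₀`
  obtain ⟨φ, hφ⟩ : ∃ φ : M →+ ℤ, ∀ x, φ x = B p₀ x :=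
    ⟨hF.homL p₀, fun x => by simp [homL, hF.comm p₀ x]⟩
  obtain ⟨e, he⟩ := Int.subgroup_cyclic φ.range
  have hdvd : ∀ x, e ∣ B p₀ x := by
    intro x
    have : φ x ∈ AddSubgroup.closure {e} := by rw [← he]; exact ⟨x, rfl⟩
    rw [AddSubgroup.mem_closure_singleton] at this
    obtain ⟨n, hn⟩ := this
    exact ⟨n, by rw [← hφ, ← hn, smul_eq_mul, mul_comm]⟩
  have hem : e ∈ φ.range := by rw [he]; exact AddSubgroup.mem_closure_singleton_self e
  obtain ⟨x₀, hx₀⟩ := hem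
  rw [hφ] at hx₀
  have he0 : e ≠ 0 := by
    rintro rfl
    obtain ⟨x, hx⟩ := hne
    exact hx (zero_dvd_iff.1 (hdvd x))
  -- the functional `B p₀ / e`
  obtain ⟨lam, hlam⟩ : ∃ lam : M →+ ℤ, ∀ x, e * lam x = B p₀ x := by
    refine ⟨AddMonoidHom.mk' (fun x => B p₀ x / e) fun x y => ?_, fun x => ?_⟩
    · show B p₀ (x + y) / e = B p₀ x / e + B p₀ y / e
      rw [hF.add_right, Int.add_ediv_of_dvd_left (hdvd x)]
    · show e * (B p₀ x / e) = B p₀ x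
      exact Int.mul_ediv_cancel' (hdvd x)
  have hlx : lam x₀ = 1 := by
    have := hlam x₀
    rw [hx₀] at this
    exact mul_left_cancel₀ he0 (by rw [this, mul_one])
  obtain ⟨n, hn⟩ : ∃ n : ℕ, n = e.natAbs := ⟨_, rfl⟩
  have hn0 : n ≠ 0 := by rw [hn]; exact Int.natAbs_ne_zero.2 he0
  have hen : e ∣ (n : ℤ) := by rw [hn]; exact Int.dvd_natAbs.2 dvd_rfl
  have hne' : (n : ℤ) ∣ e := by rw [hn]; exact Int.natAbs_dvd.2 dvd_rfl
  obtain ⟨w, hw1, hw2⟩ := hF.crt lam n hn0 fun ℓ hℓ _ K => by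
    obtain ⟨p, y, h1, h2⟩ := hloc ℓ hℓ
    exact hF.local_vector (Nat.prime_iff_prime_int.1 hℓ) h1 h2 lam (x₀ := x₀)
      (by rw [hlx]; exact fun h => (Nat.prime_iff_prime_int.1 hℓ).not_isUnit (isUnit_of_dvd_one h)) K
  -- scaling
  have hcop : IsCoprime (n : ℤ) (lam w) := by
    rw [Int.isCoprime_iff_gcd_eq_one]
    by_contra hne1
    obtain ⟨ℓ, hℓ, hd⟩ := Nat.exists_prime_and_dvd hne1
    have h3 : (ℓ : ℤ) ∣ (n : ℤ) := (Int.natCast_dvd_natCast.2 hd).trans (Int.gcd_dvd_left ..)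
    have h4 : (ℓ : ℤ) ∣ lam w := (Int.natCast_dvd_natCast.2 hd).trans (Int.gcd_dvd_right ..)
    exact (hw2 ℓ hℓ (Int.natCast_dvd_natCast.1 h3)).1 h4
  obtain ⟨u, s, hus⟩ := hcop
  -- `s * lam w = 1 - u n`
  obtain ⟨w', hw'⟩ : ∃ w', w' = s • w + (u * n) • x₀ := ⟨_, rfl⟩
  have hl' : lam w' = 1 := by
    rw [hw']
    simp only [map_add, map_zsmul, smul_eq_mul, hlx]
    linarith
  have hF' : (n : ℤ) ∣ F w' := by
    rw [hw', hF.F_comb]
    obtain ⟨x, hx⟩ := hw1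
    rw [hx]
    exact ⟨s ^ 2 * x + u ^ 2 * n * F x₀ + s * u * B w x₀, by ring⟩
  have hB' : B p₀ w' = e := by rw [← hlam, hl', mul_one]
  obtain ⟨c, hc⟩ := hen.trans hF'
  have hp1 : F (c • p₀ - w') = 0 := by
    have h5 : c • p₀ - w' = c • p₀ + (-1 : ℤ) • w' := by rw [neg_one_smul, sub_eq_add_neg]
    rw [h5, hF.F_comb, h0, hB', hc]
    ring
  obtain ⟨ψ, hψ⟩ : ∃ ψ : M →+ ℤ, ∀ x, ψ x = B (c • p₀ - w') x :=
    ⟨hF.homL (c • p₀ - w'), fun x => by simp [homL, hF.comm (c • p₀ - w') x]⟩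
  obtain ⟨y, hy⟩ := exists_one ψ fun ℓ hℓ => by
    have hℓ' : Prime (ℓ : ℤ) := Nat.prime_iff_prime_int.1 hℓ
    by_cases hd : ℓ ∣ n
    · obtain ⟨-, y, hy⟩ := hw2 ℓ hℓ hd
      refine ⟨y, fun hcon => hy ?_⟩
      rw [hψ, hF.sub_left, hF.smul_left, hw', hF.add_left, hF.smul_left, hF.smul_left] at hcon
      have h6 : (ℓ : ℤ) ∣ e := (Int.natCast_dvd_natCast.2 hd).trans hne'
      have h7 : (ℓ : ℤ) ∣ (n : ℤ) := Int.natCast_dvd_natCast.2 hd
      have h8 : (ℓ : ℤ) ∣ s * B w y := by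
        have h9 : s * B w y = c * B p₀ y - u * n * B x₀ y -
            (c * B p₀ y - (s * B w y + u * n * B x₀ y)) := by ring
        rw [h9]
        refine dvd_sub (dvd_sub (Dvd.dvd.mul_left (h6.trans (hdvd y)) c) ?_) hcon
        exact Dvd.dvd.mul_right (Dvd.dvd.mul_left h7 u) _
      rcases hℓ'.dvd_or_dvd h8 with h9 | h9
      · exfalso
        have h10 : (ℓ : ℤ) ∣ 1 := by
          rw [← hus]
          exact dvd_add (Dvd.dvd.mul_left h7 u) (Dvd.dvd.mul_right h9 _)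
        exact hℓ'.not_isUnit (isUnit_of_dvd_one h10)
      · exact h9
    · refine ⟨p₀, fun hcon => hd ?_⟩
      rw [hψ, hF.sub_left, hF.smul_left, hF.self, h0, hF.comm w' p₀, hB'] at hcon
      have h6 : (ℓ : ℤ) ∣ e := by
        have h7 : e = -(c * (2 * 0) - e) := by ring
        rw [h7]
        exact (dvd_neg).2 hcon
      exact Int.natCast_dvd_natCast.1 (h6.trans hen)
  rw [hψ] at hy
  refine ⟨c • p₀ - w', y - F y • (c • p₀ - w'), hp1, ?_, ?_⟩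
  · obtain ⟨q, hq⟩ : ∃ q, q = c • p₀ - w' := ⟨_, rfl⟩
    rw [← hq] at hy hp1 ⊢
    have h5 : y - F y • q = (1 : ℤ) • y + (-F y) • q := by
      rw [one_smul, neg_smul, sub_eq_add_neg]
    rw [h5, hF.F_comb, hF.comm y q, hy, hp1]
    ring
  · rw [hF.sub_right, hF.smul_right, hF.self, hp1, hy]
    ring

end IsQuad

end Pool.Agent.Q168.TW
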