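import Pool.Agent.Q168.TW.Lat

/-!
# Isotropic vectors with a primitive component in `A₂`

`A₁`, `A₂` generate a lattice of type `A₂` in `M`; the component of `m` is described by the numbers
`a m = - B A₂ m`, `b m = B A₁ m`, thought of as the element `a m + b m ω` of the Eisenstein integers.
If there is a hyperbolic plane, then there is an isotropic vector for which `(a, b)` is divisible neither
by `3` nor by a prime number which is `2` modulo `3`.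
-/

set_option autoImplicit false

namespace Pool.Agent.Q168.TW

/-- the norm form of the Eisenstein integers does not vanish modulo the inert primes -/
theorem inert_dvd {ℓ : ℕ} (hℓ : ℓ.Prime) (h3 : ℓ % 3 = 2) {a b : ℤ}
    (h : (ℓ : ℤ) ∣ a ^ 2 - a * b + b ^ 2) : (ℓ : ℤ) ∣ a ∧ (ℓ : ℤ) ∣ b := by
  have : Fact ℓ.Prime := ⟨hℓ⟩
  have h1 : ((a : ZMod ℓ)) ^ 2 - a * b + b ^ 2 = 0 := by
    have := (ZMod.intCast_zmod_eq_zero_iff_dvd (a ^ 2 - a * b + b ^ 2) ℓ).2 h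
    push_cast at this
    exact this
  have hb : (b : ZMod ℓ) = 0 := by
    by_contra hb
    obtain ⟨x, hx⟩ : ∃ x : ZMod ℓ, x = a / b := ⟨_, rfl⟩
    have hax : (a : ZMod ℓ) = x * b := by rw [hx, div_mul_cancel₀ _ hb]
    have h2 : x ^ 2 - x + 1 = 0 := by
      have h3 : (b : ZMod ℓ) ^ 2 * (x ^ 2 - x + 1) = 0 := by rw [← h1, hax]; ring
      exact (mul_eq_zero.1 h3).resolve_left (pow_ne_zero 2 hb)
    have h4 : (-x) ^ 3 = 1 := by linear_combination (-(x + 1)) * h2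
    have hx0 : -x ≠ 0 := by
      intro h0
      rw [h0] at h4
      norm_num at h4
    have h5 : (-x) ^ (ℓ - 1) = 1 := ZMod.pow_card_sub_one_eq_one hx0
    obtain ⟨k, hk⟩ : ∃ k, ℓ - 1 = 3 * k + 1 := ⟨(ℓ - 2) / 3, by have := hℓ.two_le; omega⟩
    rw [hk, pow_add, pow_mul, h4, one_pow, one_mul, pow_one] at h5
    have h6 : (3 : ZMod ℓ) = 0 := by
      have : x = -1 := by linear_combination -h5
      rw [this] at h2
      linear_combination h2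
    have h7 : ℓ ∣ 3 := by
      rw [← ZMod.natCast_eq_zero_iff]
      exact_mod_cast h6
    have h8 : ℓ ≤ 3 := Nat.le_of_dvd (by norm_num) h7
    have := hℓ.two_le
    have h9 : ℓ = 2 := by omega
    rw [h9] at h7
    omega
  have ha : (a : ZMod ℓ) = 0 := by
    rw [hb] at h1
    have : (a : ZMod ℓ) ^ 2 = 0 := by linear_combination h1
    exact pow_eq_zero_iff (two_ne_zero) |>.1 this
  exact ⟨(ZMod.intCast_zmod_eq_zero_iff_dvd a ℓ).1 ha, (ZMod.intCast_zmod_eq_zero_iff_dvd b ℓ).1 hb⟩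

/-- prime numbers `1` modulo `3` in an arithmetic progression, up to the sign -/
theorem exists_prime_prog {s n : ℤ} (hn : 0 < n) (hsn : IsCoprime s n) :
    ∃ (t : ℤ) (P : ℕ), P.Prime ∧ P % 3 = 1 ∧ (s + n * t).natAbs = P := by
  -- a residue `r = ± (s + n j)` with `r ≡ 1 mod 3`
  obtain ⟨ε, j, hε, hr⟩ : ∃ ε j : ℤ, (ε = 1 ∨ ε = -1) ∧ (ε * (s + n * j)) % 3 = 1 := by
    by_cases h3 : (3 : ℤ) ∣ n
    · have hs3 : ¬ (3 : ℤ) ∣ s := by
        intro h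
        obtain ⟨u, v, huv⟩ := hsn
        have : (3 : ℤ) ∣ 1 := by
          rw [← huv]
          exact dvd_add (Dvd.dvd.mul_left h u) (Dvd.dvd.mul_left h3 v)
        omega
      have : s % 3 = 1 ∨ s % 3 = 2 := by omega
      rcases this with h | h
      · exact ⟨1, 0, Or.inl rfl, by rw [mul_zero, add_zero, one_mul]; exact h⟩
      · exact ⟨-1, 0, Or.inr rfl, by rw [mul_zero, add_zero]; omega⟩
    · refine ⟨1, (1 - s) * n, Or.inl rfl, ?_⟩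
      have hn3 : n % 3 = 1 ∨ n % 3 = 2 := by omega
      obtain ⟨k, hk⟩ : ∃ k, n * n = 3 * k + 1 := by
        rcases hn3 with h | h
        · obtain ⟨q, hq⟩ : ∃ q, n = 3 * q + 1 := ⟨n / 3, by omega⟩
          exact ⟨3 * q ^ 2 + 2 * q, by rw [hq]; ring⟩
        · obtain ⟨q, hq⟩ : ∃ q, n = 3 * q + 2 := ⟨n / 3, by omega⟩
          exact ⟨3 * q ^ 2 + 4 * q + 1, by rw [hq]; ring⟩
      have h1 : 1 * (s + n * ((1 - s) * n)) = 1 + 3 * (k * (1 - s)) := by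
        have : n * ((1 - s) * n) = (n * n) * (1 - s) := by ring
        rw [this, hk]
        ring
      rw [h1]
      omega
  obtain ⟨r, hrdef⟩ : ∃ r, r = ε * (s + n * j) := ⟨_, rfl⟩
  rw [← hrdef] at hr
  have hεε : ε * ε = 1 := by rcases hε with h | h <;> rw [h] <;> norm_num
  have hcop : IsCoprime r (3 * n) := by
    have h1 : IsCoprime r n := by
      rw [hrdef]
      have h2 : IsCoprime (s + n * j) n := IsCoprime.add_mul_left_left hsn j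
      refine IsCoprime.mul_left ?_ h2
      exact ⟨ε, 0, by rw [hεε]; ring⟩
    have h3 : IsCoprime r 3 := by
      refine ⟨1, -(r / 3), ?_⟩
      omega
    exact IsCoprime.mul_right h3 h1
  obtain ⟨q, hq⟩ : ∃ q : ℕ, (q : ℤ) = 3 * n := ⟨(3 * n).toNat, Int.toNat_of_nonneg (by omega)⟩
  have hq0 : q ≠ 0 := by rintro rfl; push_cast at hq; omega
  rw [← hq] at hcop
  obtain ⟨P, -, hP, hPr⟩ := Nat.forall_exists_prime_gt_and_zmodEq 0 hq0 hcop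
  rw [hq] at hPr
  obtain ⟨i, hi⟩ := hPr.dvd
  -- `r - P = 3 n i`
  refine ⟨j - ε * (3 * i), P, hP, ?_, ?_⟩
  · have h1 : (P : ℤ) = r - 3 * (n * i) := by linarith
    omega
  · have h2 : s + n * (j - ε * (3 * i)) = ε * P := by
      have h3 : (P : ℤ) = r - 3 * n * i := by linarith
      rw [h3, hrdef]
      linear_combination -(s + n * j) * hεε
    rw [h2, Int.natAbs_mul]
    rcases hε with h | h <;> rw [h] <;> simp

variable {M : Type} [AddCommGroup M] {F : M → ℤ} {B : M → M → ℤ}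

/-- two vectors generating a lattice of type `A₂` -/
structure IsA2 (F : M → ℤ) (B : M → M → ℤ) (A₁ A₂ : M) : Prop where
  one : F A₁ = 1
  two : F A₂ = 1
  cross : B A₁ A₂ = -1

/-- the isotropic vector `F w • p₀ - w` -/
theorem refl_isotropic (hF : IsQuad F B) {p₀ w : M} (h0 : F p₀ = 0) (hw : B p₀ w = 1) :
    F (F w • p₀ - w) = 0 := by
  have h5 : F w • p₀ - w = F w • p₀ + (-1 : ℤ) • w := by rw [neg_one_smul, sub_eq_add_neg]
  obtain ⟨f, hf⟩ : ∃ f, f = F w := ⟨_, rfl⟩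
  rw [h5, ← hf, hF.F_comb, h0, hw, ← hf]
  ring

section

variable (hF : IsQuad F B) {A₁ A₂ : M} (hA : IsA2 F B A₁ A₂) {p₀ y₀ : M} (h0 : F p₀ = 0)
  (hy : F y₀ = 0) (h1 : B p₀ y₀ = 1)
include hF h0 hy h1

/-- the component of `x` orthogonal to the hyperbolic plane -/
theorem comp_orth (x : M) : ∃ m : M, (∀ z, B z m = B z x - B x y₀ * B z p₀ - B x p₀ * B z y₀) ∧
    B p₀ m = 0 ∧ B y₀ m = 0 := by
  obtain ⟨s, hs⟩ : ∃ s, s = B x y₀ := ⟨_, rfl⟩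
  obtain ⟨t, ht⟩ : ∃ t, t = B x p₀ := ⟨_, rfl⟩
  have key : ∀ z, B z (x - s • p₀ - t • y₀) = B z x - s * B z p₀ - t * B z y₀ := by
    intro z
    rw [hF.sub_right, hF.sub_right, hF.smul_right, hF.smul_right]
  refine ⟨x - s • p₀ - t • y₀, fun z => by rw [key, hs, ht], ?_, ?_⟩
  · rw [key, hF.self, h0, h1, hF.comm p₀ x, ← ht]; ring
  · rw [key, hF.self, hy, hF.comm y₀ x, hF.comm y₀ p₀, h1, ← hs]; ring

omit h0 in
/-- the values on `F w • p₀ - w` for `w = y₀ + n m`, `m` orthogonal to the hyperbolic plane -/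
theorem val_refl {m : M} (hm1 : B p₀ m = 0) (hm2 : B y₀ m = 0) (n : ℤ) :
    B p₀ (y₀ + n • m) = 1 ∧
    ∀ z, B z (F (y₀ + n • m) • p₀ - (y₀ + n • m)) = n ^ 2 * F m * B z p₀ - B z y₀ - n * B z m := by
  constructor
  · rw [hF.add_right, hF.smul_right, h1, hm1]; ring
  · intro z
    rw [hF.sub_right, hF.smul_right, hF.add_right, hF.smul_right, hF.F_add, hF.F_smul,
      hF.smul_right, hy, hm2]
    ring

omit hF h0 hy h1 in
theorem mod2 (P Q f g u v : ZMod 2) (e1 : u = 0) (e2 : v = 0)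
    (e3 : f * Q - v - (-1 - u * Q - P * v) = 0) (e6 : g * P - u - (-1 - v * P - Q * u) = 0)
    (e4 : f * P - u - (2 - u * P - P * u) = 0) : False := by
  subst e1 e2
  revert P Q f g
  decide

omit hF h0 hy h1 in
theorem mod3 (P Q f u v : ZMod 3) (e1 : u = 0) (e2 : v = 0)
    (e3 : f * Q - v - (-1 - u * Q - P * v) = 0) (e4 : f * Q - v + (-1 - u * Q - P * v) = 0) :
    False := by
  subst e1 e2
  revert P Q f
  decide

include hA

theorem local_two : ∃ w, B p₀ w = 1 ∧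
    ¬ ((2 : ℤ) ∣ B A₂ (F w • p₀ - w) ∧ (2 : ℤ) ∣ B A₁ (F w • p₀ - w)) := by
  by_contra hcon
  push Not at hcon
  obtain ⟨m₁, e1, e2, e3⟩ := comp_orth hF h0 hy h1 A₁
  obtain ⟨m₂, f1, f2, f3⟩ := comp_orth hF h0 hy h1 A₂
  have a0 := hcon y₀ h1
  have a1 := hcon _ (val_refl hF hy h1 e2 e3 1).1
  have a2 := hcon _ (val_refl hF hy h1 f2 f3 1).1
  rw [(val_refl hF hy h1 e2 e3 1).2, (val_refl hF hy h1 e2 e3 1).2] at a1
  rw [(val_refl hF hy h1 f2 f3 1).2, (val_refl hF hy h1 f2 f3 1).2] at a2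
  rw [hy, zero_smul, zero_sub, hF.comm A₂, hF.neg_left, hF.comm A₁, hF.neg_left, hF.comm y₀,
    hF.comm y₀] at a0
  rw [e1, e1, hF.self, hA.one, hF.comm A₂ A₁, hA.cross] at a1
  rw [f1, f1, hF.self, hA.two, hA.cross] at a2
  have c : ∀ E : ℤ, (2 : ℤ) ∣ E → ((E : ℤ) : ZMod 2) = 0 := fun E h =>
    (ZMod.intCast_zmod_eq_zero_iff_dvd E 2).2 (by exact_mod_cast h)
  have b1 := c _ a0.1
  have b2 := c _ a0.2
  have b3 := c _ a1.1
  have b4 := c _ a1.2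
  have b6 := c _ a2.2
  push_cast at b1 b2 b3 b4 b6
  rw [neg_eq_zero] at b1 b2
  refine mod2 (B A₁ p₀ : ZMod 2) (B A₂ p₀) (F m₁) (F m₂) (B A₁ y₀) (B A₂ y₀) b2 b1 ?_ ?_ ?_
  · linear_combination b3
  · linear_combination b6
  · linear_combination b4

theorem local_three : ∃ w, B p₀ w = 1 ∧
    ¬ ((3 : ℤ) ∣ B A₂ (F w • p₀ - w) ∧ (3 : ℤ) ∣ B A₁ (F w • p₀ - w)) := by
  by_contra hcon
  push Not at hcon
  obtain ⟨m₁, e1, e2, e3⟩ := comp_orth hF h0 hy h1 A₁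
  have a0 := hcon y₀ h1
  have a1 := hcon _ (val_refl hF hy h1 e2 e3 1).1
  have a2 := hcon _ (val_refl hF hy h1 e2 e3 (-1)).1
  rw [(val_refl hF hy h1 e2 e3 1).2] at a1
  rw [(val_refl hF hy h1 e2 e3 (-1)).2] at a2
  rw [hy, zero_smul, zero_sub, hF.comm A₂, hF.neg_left, hF.comm A₁, hF.neg_left, hF.comm y₀,
    hF.comm y₀] at a0
  rw [e1, hF.comm A₂ A₁, hA.cross] at a1 a2
  have c : ∀ E : ℤ, (3 : ℤ) ∣ E → ((E : ℤ) : ZMod 3) = 0 := fun E h =>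
    (ZMod.intCast_zmod_eq_zero_iff_dvd E 3).2 (by exact_mod_cast h)
  have b1 := c _ a0.1
  have b2 := c _ a0.2
  have b3 := c _ a1.1
  have b4 := c _ a2.1
  push_cast at b1 b2 b3 b4
  rw [neg_eq_zero] at b1 b2
  refine mod3 (B A₁ p₀ : ZMod 3) (B A₂ p₀) (F m₁) (B A₁ y₀) (B A₂ y₀) b2 b1 ?_ ?_
  · linear_combination b3
  · linear_combination b4

/-- both conditions at once -/
theorem local_six : ∃ w, B p₀ w = 1 ∧
    ¬ ((2 : ℤ) ∣ B A₂ (F w • p₀ - w) ∧ (2 : ℤ) ∣ B A₁ (F w • p₀ - w)) ∧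
    ¬ ((3 : ℤ) ∣ B A₂ (F w • p₀ - w) ∧ (3 : ℤ) ∣ B A₁ (F w • p₀ - w)) := by
  obtain ⟨w₂, hw2, hn2⟩ := local_two hF hA h0 hy h1
  obtain ⟨w₃, hw3, hn3⟩ := local_three hF hA h0 hy h1
  have hFw : F ((3 : ℤ) • w₂ + (-2 : ℤ) • w₃) = 9 * F w₂ + 4 * F w₃ - 6 * B w₂ w₃ := by
    rw [hF.F_comb]; ring
  have key : ∀ z, B z (F ((3 : ℤ) • w₂ + (-2 : ℤ) • w₃) • p₀ - ((3 : ℤ) • w₂ + (-2 : ℤ) • w₃)) =
      (9 * F w₂ + 4 * F w₃ - 6 * B w₂ w₃) * B z p₀ - (3 * B z w₂ - 2 * B z w₃) := by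
    intro z
    rw [hF.sub_right, hF.smul_right, hF.add_right, hF.smul_right, hF.smul_right, hFw]
    ring
  have k2 : ∀ z, B z (F w₂ • p₀ - w₂) = F w₂ * B z p₀ - B z w₂ := by
    intro z
    rw [hF.sub_right, hF.smul_right]
  have k3 : ∀ z, B z (F w₃ • p₀ - w₃) = F w₃ * B z p₀ - B z w₃ := by
    intro z
    rw [hF.sub_right, hF.smul_right]
  refine ⟨(3 : ℤ) • w₂ + (-2 : ℤ) • w₃, ?_, ?_, ?_⟩
  · rw [hF.add_right, hF.smul_right, hF.smul_right, hw2, hw3]; norm_num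
  · rintro ⟨h2, h3⟩
    refine hn2 ⟨?_, ?_⟩
    · rw [key] at h2
      rw [k2]
      have : F w₂ * B A₂ p₀ - B A₂ w₂ = ((9 * F w₂ + 4 * F w₃ - 6 * B w₂ w₃) * B A₂ p₀ -
        (3 * B A₂ w₂ - 2 * B A₂ w₃)) - 2 * ((4 * F w₂ + 2 * F w₃ - 3 * B w₂ w₃) * B A₂ p₀ -
          B A₂ w₂ + B A₂ w₃) := by ring
      rw [this]
      exact dvd_sub h2 (Dvd.intro _ rfl)
    · rw [key] at h3
      rw [k2]
      have : F w₂ * B A₁ p₀ - B A₁ w₂ = ((9 * F w₂ + 4 * F w₃ - 6 * B w₂ w₃) * B A₁ p₀ -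
        (3 * B A₁ w₂ - 2 * B A₁ w₃)) - 2 * ((4 * F w₂ + 2 * F w₃ - 3 * B w₂ w₃) * B A₁ p₀ -
          B A₁ w₂ + B A₁ w₃) := by ring
      rw [this]
      exact dvd_sub h3 (Dvd.intro _ rfl)
  · rintro ⟨h2, h3⟩
    refine hn3 ⟨?_, ?_⟩
    · rw [key] at h2
      rw [k3]
      have : F w₃ * B A₂ p₀ - B A₂ w₃ = ((9 * F w₂ + 4 * F w₃ - 6 * B w₂ w₃) * B A₂ p₀ -
        (3 * B A₂ w₂ - 2 * B A₂ w₃)) - 3 * ((3 * F w₂ + F w₃ - 2 * B w₂ w₃) * B A₂ p₀ -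
          B A₂ w₂ + B A₂ w₃) := by ring
      rw [this]
      exact dvd_sub h2 (Dvd.intro _ rfl)
    · rw [key] at h3
      rw [k3]
      have : F w₃ * B A₁ p₀ - B A₁ w₃ = ((9 * F w₂ + 4 * F w₃ - 6 * B w₂ w₃) * B A₁ p₀ -
        (3 * B A₁ w₂ - 2 * B A₁ w₃)) - 3 * ((3 * F w₂ + F w₃ - 2 * B w₂ w₃) * B A₁ p₀ -
          B A₁ w₂ + B A₁ w₃) := by ring
      rw [this]
      exact dvd_sub h3 (Dvd.intro _ rfl)

/-- **An isotropic vector with a primitive component in `A₂`.** -/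
theorem exists_prim (hneg : ∀ x, B A₁ x = 0 → B A₂ x = 0 → F x = 0 → ∀ y, B x y = 0) :
    ∃ p, F p = 0 ∧ ¬ ((3 : ℤ) ∣ B A₂ p ∧ (3 : ℤ) ∣ B A₁ p) ∧
      ∀ ℓ : ℕ, ℓ.Prime → ℓ % 3 = 2 → ¬ ((ℓ : ℤ) ∣ B A₂ p ∧ (ℓ : ℤ) ∣ B A₁ p) := by
  obtain ⟨w, hw, hn2, hn3⟩ := local_six hF hA h0 hy h1
  -- the component of `p₀`: `a₀ = - B A₂ p₀ = g₀ a`, `b₀ = B A₁ p₀ = g₀ b`
  obtain ⟨g, hg⟩ : ∃ g : ℤ, g = Int.gcd (B A₂ p₀) (B A₁ p₀) := ⟨_, rfl⟩
  have hne : Int.gcd (B A₂ p₀) (B A₁ p₀) ≠ 0 := by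
    intro h
    obtain ⟨h2, h3⟩ := Int.gcd_eq_zero_iff.1 h
    have := hneg p₀ h3 h2 h0 y₀
    rw [h1] at this
    exact one_ne_zero this
  have hgpos : 0 < g := by
    rw [hg]
    exact_mod_cast Nat.pos_of_ne_zero hne
  obtain ⟨a, ha⟩ : g ∣ B A₂ p₀ := by rw [hg]; exact Int.gcd_dvd_left ..
  obtain ⟨b, hb⟩ : g ∣ B A₁ p₀ := by rw [hg]; exact Int.gcd_dvd_right ..
  have hab : IsCoprime a b := by
    have h2 : Int.gcd (g * a) (g * b) = Int.gcd (B A₂ p₀) (B A₁ p₀) := by rw [ha, hb]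
    rw [Int.gcd_mul_left] at h2
    rw [Int.isCoprime_iff_gcd_eq_one]
    have h3 : g.natAbs = Int.gcd (B A₂ p₀) (B A₁ p₀) := by
      rw [hg]; simp
    rw [h3] at h2
    exact Nat.eq_of_mul_eq_mul_left (Nat.pos_of_ne_zero hne) (by rw [h2, mul_one])
  -- `s₀ = - a A₁ + b A₂`
  obtain ⟨s₀, hs₀⟩ : ∃ s₀, s₀ = (-a) • A₁ + b • A₂ := ⟨_, rfl⟩
  have hB1 : B s₀ p₀ = 0 := by
    rw [hs₀, hF.add_left, hF.smul_left, hF.smul_left, ha, hb]; ring
  obtain ⟨n', hn'⟩ : ∃ n', n' = a ^ 2 + a * b + b ^ 2 := ⟨_, rfl⟩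
  have hFs : F s₀ = n' := by
    rw [hs₀, hF.F_comb, hA.one, hA.two, hA.cross, hn']; ring
  have hn'pos : 0 < n' := by
    obtain ⟨u, v, huv⟩ := hab
    by_contra hcon
    have h2 : a ^ 2 + a * b + b ^ 2 ≤ 0 := by rw [← hn']; omega
    have h3 : a = 0 := by nlinarith [sq_nonneg (a + b), sq_nonneg a, sq_nonneg b]
    have h4 : b = 0 := by nlinarith [sq_nonneg (a + b), sq_nonneg a, sq_nonneg b]
    rw [h3, h4] at huv
    simp at huv
  -- the prime number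
  obtain ⟨σ, hσ⟩ : ∃ σ, σ = B s₀ w := ⟨_, rfl⟩
  obtain ⟨δ, hδ⟩ : ∃ δ : ℤ, δ = Int.gcd σ (12 * n') := ⟨_, rfl⟩
  have hδne : Int.gcd σ (12 * n') ≠ 0 := by
    intro h
    have := (Int.gcd_eq_zero_iff.1 h).2
    omega
  have hδpos : 0 < δ := by
    rw [hδ]; exact_mod_cast Nat.pos_of_ne_zero hδne
  obtain ⟨σ', hσ'⟩ : δ ∣ σ := by rw [hδ]; exact Int.gcd_dvd_left ..
  obtain ⟨N, hN⟩ : δ ∣ 12 * n' := by rw [hδ]; exact Int.gcd_dvd_right ..
  have hcop : IsCoprime σ' N := by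
    have h2 : Int.gcd (δ * σ') (δ * N) = Int.gcd σ (12 * n') := by rw [← hσ', ← hN]
    rw [Int.gcd_mul_left] at h2
    rw [Int.isCoprime_iff_gcd_eq_one]
    have h3 : δ.natAbs = Int.gcd σ (12 * n') := by
      rw [hδ]; simp
    rw [h3] at h2
    exact Nat.eq_of_mul_eq_mul_left (Nat.pos_of_ne_zero hδne) (by rw [h2, mul_one])
  have hNpos : 0 < N := by
    by_contra hcon
    have : δ * N ≤ 0 := mul_nonpos_of_nonneg_of_nonpos hδpos.le (by omega)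
    omega
  obtain ⟨t, P, hP, hP3, hPt⟩ := exists_prime_prog hNpos hcop
  -- the new vector
  obtain ⟨w', hw'⟩ : ∃ w', w' = w + (6 * t) • s₀ := ⟨_, rfl⟩
  have hw'1 : B p₀ w' = 1 := by
    rw [hw', hF.add_right, hF.smul_right, hw, hF.comm p₀ s₀, hB1]; ring
  have hFw' : F w' = F w + 6 * (t * B w s₀ + 6 * t ^ 2 * n') := by
    rw [hw', hF.F_add, hF.F_smul, hF.smul_right, hFs]; ring
  have key : ∀ z, B z (F w' • p₀ - w') = B z (F w • p₀ - w) +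
      6 * ((t * B w s₀ + 6 * t ^ 2 * n') * B z p₀ - t * B z s₀) := by
    intro z
    rw [hF.sub_right, hF.smul_right, hFw', hF.sub_right, hF.smul_right, hw', hF.add_right,
      hF.smul_right]
    ring
  have hσp : B s₀ (F w' • p₀ - w') = -(δ * (σ' + N * t)) := by
    have h2 : δ * (σ' + N * t) = σ + 12 * n' * t := by rw [hσ', hN]; ring
    rw [hF.sub_right, hF.smul_right, hB1, hw', hF.add_right, hF.smul_right, hF.self, hFs, ← hσ, h2]
    ring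
  refine ⟨F w' • p₀ - w', refl_isotropic hF h0 hw'1, ?_, ?_⟩
  · rintro ⟨h2, h3⟩
    rw [key] at h2 h3
    have e : ∀ x : ℤ, (3 : ℤ) ∣ 6 * x := fun x => ⟨2 * x, by ring⟩
    exact hn3 ⟨(Int.dvd_add_left (e _)).1 h2, (Int.dvd_add_left (e _)).1 h3⟩
  · rintro ℓ hℓ hℓ3 ⟨h2, h3⟩
    have hℓ' : Prime (ℓ : ℤ) := Nat.prime_iff_prime_int.1 hℓ
    have h4 : (ℓ : ℤ) ∣ δ * (σ' + N * t) := by
      rw [← dvd_neg, ← hσp, hs₀, hF.add_left, hF.smul_left, hF.smul_left]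
      exact dvd_add (Dvd.dvd.mul_left h3 _) (Dvd.dvd.mul_left h2 _)
    have h5 : (ℓ : ℤ) ∣ δ := by
      rcases hℓ'.dvd_or_dvd h4 with h | h
      · exact h
      · exfalso
        have h6 : ℓ ∣ P := by
          rw [← hPt]
          exact Int.natCast_dvd.1 h
        have h7 : ℓ = P := (Nat.prime_dvd_prime_iff_eq hℓ hP).1 h6
        omega
    have h8 : (ℓ : ℤ) ∣ 12 * n' := h5.trans ⟨N, hN⟩
    have hℓ2 : ℓ ≠ 2 := by
      rintro rfl
      rw [key] at h2 h3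
      have e : ∀ x : ℤ, ((2 : ℕ) : ℤ) ∣ 6 * x := fun x => ⟨3 * x, by push_cast; ring⟩
      refine hn2 ⟨?_, ?_⟩
      · have := (Int.dvd_add_left (e _)).1 h2
        exact_mod_cast this
      · have := (Int.dvd_add_left (e _)).1 h3
        exact_mod_cast this
    rcases hℓ'.dvd_or_dvd h8 with h | h
    · have h9 : ℓ ∣ 12 := by exact_mod_cast h
      have h10 : ℓ ∣ 2 ^ 2 * 3 := by simpa using h9
      rcases (hℓ.dvd_mul).1 h10 with h11 | h11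
      · exact hℓ2 ((Nat.prime_dvd_prime_iff_eq hℓ Nat.prime_two).1 (hℓ.dvd_of_dvd_pow h11))
      · have := (Nat.prime_dvd_prime_iff_eq hℓ Nat.prime_three).1 h11
        omega
    · have h9 : (ℓ : ℤ) ∣ (-a) ^ 2 - (-a) * b + b ^ 2 := by
        rw [hn'] at h
        have : (-a) ^ 2 - (-a) * b + b ^ 2 = a ^ 2 + a * b + b ^ 2 := by ring
        rw [this]
        exact h
      obtain ⟨h10, h11⟩ := inert_dvd hℓ hℓ3 h9
      obtain ⟨u, v, huv⟩ := hab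
      have : (ℓ : ℤ) ∣ 1 := by
        rw [← huv]
        exact dvd_add (Dvd.dvd.mul_left (dvd_neg.1 h10) u) (Dvd.dvd.mul_left h11 v)
      exact hℓ'.not_isUnit (isUnit_of_dvd_one this)

end

end Pool.Agent.Q168.TW
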